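import Pool.Agent.R838.LD.UNG

/-! No bad zeros when `2 τ Om t` is in a fixed range (`SH_BIGM`); port of `Pool.Agent.W928.SD.Bigm`. -/

set_option autoImplicit false

namespace Pool.Agent.R838.LD.Y46

open Complex Filter Topology MeasureTheory Set
open Pool.Agent.H24R2.JP (Om)
open Pool.Agent.W186.SD (UU NG Grow S_AW S_NL)
open Pool.Agent.Y671.LD

/-- symmetry of the heat operator -/
lemma UU_symm (g : ℝ) (F : ℂ → ℂ)
    (h : ∀ z : ℂ, F (-((starRingEnd ℂ) z)) = (starRingEnd ℂ) (F z)) (z : ℂ) :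
    UU g F (-((starRingEnd ℂ) z)) = (starRingEnd ℂ) (UU g F z) := by
  unfold UU
  rw [← integral_conj, ← integral_neg_eq_self]
  refine integral_congr_ae (Eventually.of_forall fun u => ?_)
  simp only [map_mul, Complex.conj_ofReal]
  rw [← h (z + u)]
  have e1 : (-((starRingEnd ℂ) z) + ((-u : ℝ) : ℂ)) = -((starRingEnd ℂ) (z + (u : ℂ))) := by
    rw [map_add, Complex.conj_ofReal]
    push_cast
    ring
  rw [e1]
  have e2 : g * (-u) ^ 2 = g * u ^ 2 := by ring
  rw [e2]

lemma FarOK_mono' {F : ℂ → ℂ} {R R' ε ε' η η' t : ℝ} (h : FarOK F R ε η t) (hR : R' ≤ R)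
    (hε : ε ≤ ε') (hη : η ≤ η') (ht : 0 ≤ Om t) : FarOK F R' ε' η' t := by
  intro z h1 h2
  obtain ⟨h3, h4⟩ := h z (hε.trans h1) (h2.trans hR)
  exact ⟨h3, h4.trans (mul_le_mul_of_nonneg_right hη ht)⟩

lemma Om_pos {t : ℝ} (ht : 1 < t) : 0 < Om t := by
  unfold Om
  have := Real.log_pos ht
  linarith

/-- change of the centre -/
lemma FarOK_shift {F : ℂ → ℂ} {R ε η t t' : ℝ} (h : FarOK F (R + 1) ε η t') (ht : 3 ≤ t)
    (htt : |t - t'| ≤ 1) (hη : 0 < η) (hbig : (1 + η) / η ≤ Om t) : FarOK F R ε (2 * η) t := by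
  have htt' := abs_le.1 htt
  have h1t' : 2 ≤ t' := by linarith
  have hOm : |Om t - Om t'| ≤ 1 / 2 := by
    unfold Om
    have h1 : |Real.log t - Real.log t'| ≤ 1 := by
      rw [abs_le]
      constructor
      · have h2 : Real.log (t' / t) ≤ t' / t - 1 := Real.log_le_sub_one_of_pos (by positivity)
        rw [Real.log_div (by positivity) (by positivity)] at h2
        have h3 : t' / t - 1 ≤ 1 := by
          rw [sub_le_iff_le_add, div_le_iff₀ (by positivity)]
          linarith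
        linarith
      · have h2 : Real.log (t / t') ≤ t / t' - 1 := Real.log_le_sub_one_of_pos (by positivity)
        rw [Real.log_div (by positivity) (by positivity)] at h2
        have h3 : t / t' - 1 ≤ 1 := by
          rw [sub_le_iff_le_add, div_le_iff₀ (by positivity)]
          linarith
        linarith
    rw [← sub_div, abs_div, abs_of_pos (by norm_num : (0:ℝ) < 2)]
    linarith
  intro z hz1 hz2
  have e1 : I * (t : ℂ) + z = I * (t' : ℂ) + (z + I * ((t - t' : ℝ) : ℂ)) := by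
    push_cast; ring
  have h4 := h (z + I * ((t - t' : ℝ) : ℂ)) (by simpa using hz1) (by
    refine (norm_add_le _ _).trans ?_
    rw [norm_mul, Complex.norm_I, one_mul, Complex.norm_real, Real.norm_eq_abs]
    linarith)
  rw [← e1] at h4
  refine ⟨h4.1, ?_⟩
  have h5 : ‖logDeriv F (I * ↑t + z) - (Om t : ℂ)‖ ≤
      ‖logDeriv F (I * ↑t + z) - (Om t' : ℂ)‖ + ‖(Om t' : ℂ) - (Om t : ℂ)‖ := by
    have : logDeriv F (I * ↑t + z) - (Om t : ℂ) =
        (logDeriv F (I * ↑t + z) - (Om t' : ℂ)) + ((Om t' : ℂ) - (Om t : ℂ)) := by ring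
    rw [this]; exact norm_add_le _ _
  have h6 : ‖(Om t' : ℂ) - (Om t : ℂ)‖ ≤ 1 / 2 := by
    rw [← Complex.ofReal_sub, Complex.norm_real, Real.norm_eq_abs, abs_sub_comm]
    exact hOm
  have h7 : Om t' ≤ Om t + 1 / 2 := by
    have := (abs_le.1 hOm).1; linarith
  have h8 : (1 + η) ≤ η * Om t := by
    rwa [div_le_iff₀ hη, mul_comm] at hbig
  have h9 : η * Om t' ≤ η * (Om t + 1 / 2) := mul_le_mul_of_nonneg_left h7 hη.le
  have h10 := h4.2
  nlinarith

lemma NG_mono {δ a g η η' : ℝ} {F : ℂ → ℂ} (h : NG δ a g η F) (hη : η ≤ η') (ha : 0 ≤ a) :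
    NG δ a g η' F := by
  refine ⟨h.diff, h.symm, fun z h1 h2 => ?_, h.near, h.grow⟩
  obtain ⟨h3, h4⟩ := h.far z h1 h2
  exact ⟨h3, h4.trans (mul_le_mul_of_nonneg_right hη ha)⟩

/-- away from the line there are no zeros (both sides) -/
lemma no_zero {δ a g η : ℝ} {F : ℂ → ℂ} (hδ : δ ≤ 1 / 2) (h : NG δ a g η F)
    (hAW : ∀ z : ℂ, δ ≤ z.re → z.re ≤ 6 → |z.im| ≤ 1 →
      Real.exp (-a) * ‖F 1‖ ≤ Real.sqrt g * ‖UU g F z‖)
    (x : ℝ) (hx : δ ≤ |x|) (hx6 : |x| ≤ 6) : UU g F (x : ℂ) ≠ 0 := by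
  have hF1 : 0 < ‖F 1‖ := by
    rw [norm_pos_iff]
    refine (h.far 1 ?_ ?_).1
    · rw [Complex.one_re]; linarith
    · rw [norm_one]; norm_num
  have hpos : 0 < Real.exp (-a) * ‖F 1‖ := mul_pos (Real.exp_pos _) hF1
  intro h0
  have habs : UU g F ((|x| : ℝ) : ℂ) = 0 := by
    rcases le_total 0 x with h1 | h1
    · rw [abs_of_nonneg h1]; exact h0
    · rw [abs_of_nonpos h1]
      have h2 := UU_symm g F h.symm (x : ℂ)
      rw [Complex.conj_ofReal, h0, map_zero] at h2
      push_cast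
      exact h2
  have h3 := hAW ((|x| : ℝ) : ℂ) (by rw [Complex.ofReal_re]; exact hx)
    (by rw [Complex.ofReal_re]; exact hx6) (by rw [Complex.ofReal_im]; simp)
  rw [habs, norm_zero, mul_zero] at h3
  linarith

theorem bigm (h1 : SH_UNG) (h2 : S_AW) (h3 : S_NL) (h4 : SH_REL) : SH_BIGM := by
  intro Bs F FT h hD
  have h5 := hD.strip
  have hB1 := hD.B_ge
  intro c X hc hcX
  have hX : 0 < X := hc.trans_le hcX
  obtain ⟨ηA, aA, hηA, haA, hA⟩ := h2 (1 / 2) (by norm_num) le_rfl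
  obtain ⟨ηN, aN, hηN, haN, hN⟩ := h3
  set δ' : ℝ := min (1 / 2) c with hδ'
  have hδ'0 : 0 < δ' := lt_min (by norm_num) hc
  have hδ'1 : δ' ≤ 1 / 2 := min_le_left _ _
  obtain ⟨ηB, aB, hηB, haB, hB⟩ := h2 δ' hδ'0 hδ'1
  obtain ⟨R1, η1, T1, hR1, hη1, hT1, hU1⟩ := h1 Bs F FT h hD (1 / 2) c (max X Bs) (by norm_num) le_rfl hc
    (hcX.trans (le_max_left _ _)) (min ηA ηN) (lt_min hηA hηN)
  obtain ⟨R2, η2, T2, hR2, hη2, hT2, hU2⟩ := h1 Bs F FT h hD δ' 1 1 hδ'0 hδ'1 one_pos le_rfl ηB hηB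
  set ε0 : ℝ := min (1 / 2 * min c 1 / 10) (δ' * min 1 1 / 10) with hε0
  have hε0pos : 0 < ε0 := by
    have : 0 < min c 1 := lt_min hc one_pos
    refine lt_min (by positivity) (by rw [min_self]; positivity)
  set η : ℝ := min η1 η2 / 2 with hη
  have hηpos : 0 < η := by
    have : 0 < min η1 η2 := lt_min hη1 hη2
    positivity
  set K : ℝ := 4 * X + 4 + aA / c + aN / c + aB + (1 + η) / η with hK
  have hKp1 : 0 < aA / c := div_pos (by linarith) hc
  have hKp2 : 0 < aN / c := div_pos (by linarith) hc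
  have hKp3 : 0 < (1 + η) / η := by positivity
  refine ⟨max R1 R2 + 1, ε0, η, max (max T1 T2) (Real.exp (2 * K)), ?_, hε0pos, hηpos,
    (hT1.trans (le_max_left _ _)).trans (le_max_left _ _), ?_⟩
  · have := le_max_left R1 R2
    linarith
  intro t t' τ s ht htt hτ hcr hrX hfar hsim hbad
  have htT1 : T1 ≤ t := ((le_max_left _ _).trans (le_max_left _ _)).trans ht
  have htT2 : T2 ≤ t := ((le_max_right _ _).trans (le_max_left _ _)).trans ht
  have hte : Real.exp (2 * K) ≤ t := (le_max_right _ _).trans ht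
  have hOmK : K ≤ Om t := by
    unfold Om
    have h6 : 2 * K ≤ Real.log t := by
      rw [← Real.log_exp (2 * K)]
      exact Real.log_le_log (Real.exp_pos _) hte
    linarith
  have ht3 : 3 ≤ t := by
    have h6 : 2 * K + 1 ≤ Real.exp (2 * K) := Real.add_one_le_exp _
    have : 4 ≤ K := by rw [hK]; linarith
    linarith
  have hOm4X : 4 * X ≤ Om t := by rw [hK] at hOmK; linarith
  have hOm4 : 4 ≤ Om t := by rw [hK] at hOmK; linarith
  have hOmpos : 0 < Om t := by linarith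
  have hOmA : aA ≤ c * Om t := by
    have : aA / c ≤ Om t := by rw [hK] at hOmK; linarith
    rwa [div_le_iff₀ hc, mul_comm] at this
  have hOmN : aN ≤ c * Om t := by
    have : aN / c ≤ Om t := by rw [hK] at hOmK; linarith
    rwa [div_le_iff₀ hc, mul_comm] at this
  have hOmB : aB ≤ Om t := by rw [hK] at hOmK; linarith
  have hOmη : (1 + η) / η ≤ Om t := by rw [hK] at hOmK; linarith
  have hfart : FarOK F (max R1 R2) ε0 (2 * η) t := FarOK_shift hfar ht3 htt hηpos hOmη
  have h2η1 : 2 * η ≤ η1 := by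
    have := min_le_left η1 η2
    rw [hη]; linarith
  have h2η2 : 2 * η ≤ η2 := by
    have := min_le_right η1 η2
    rw [hη]; linarith
  set r : ℝ := 2 * τ * Om t with hr
  have hrpos : 0 < r := hc.trans_le hcr
  obtain ⟨hs0, hsbad⟩ := hbad
  have hsre := h5 τ s hτ.le hs0
  have hs_eq : s = I * (t : ℂ) + ((r : ℝ) : ℂ) * ((s.re / r : ℝ) : ℂ) := by
    apply Complex.ext
    · simp only [Complex.add_re, Complex.mul_re, Complex.I_re, Complex.I_im, Complex.ofReal_re,
        Complex.ofReal_im]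
      field_simp
      ring
    · simp only [Complex.add_im, Complex.mul_im, Complex.I_re, Complex.I_im, Complex.ofReal_re,
        Complex.ofReal_im]
      rw [hsim]; ring
  -- the main scale
  have hg : r ^ 2 / (4 * τ) = r * Om t / 2 := by
    rw [hr]; field_simp; norm_num
  have hNG : NG (1 / 2) (r * Om t) (r * Om t / 2) (min ηA ηN) (fun z => F (I * t + r * z)) := by
    refine hU1 t r (r * Om t / 2) htT1 hcr (hrX.trans (le_max_left _ _)) ?_ (FarOK_mono' hfart (le_max_left _ _)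
      (min_le_left _ _) h2η1 hOmpos.le)
    nlinarith
  have hapos : 0 ≤ r * Om t := by positivity
  have hcOm : c * Om t ≤ r * Om t := mul_le_mul_of_nonneg_right hcr hOmpos.le
  have hfac : ∀ (τ r : ℝ), 0 < τ → 0 < r →
      ((r / (2 * Real.sqrt (Real.pi * τ)) : ℝ) : ℂ) ≠ 0 := by
    intro τ r h6 h7
    rw [Ne, Complex.ofReal_eq_zero]
    have : 0 < Real.sqrt (Real.pi * τ) := Real.sqrt_pos.2 (by positivity)
    positivity
  have hzero : UU (r * Om t / 2) (fun z => F (I * t + r * z)) ((s.re / r : ℝ) : ℂ) = 0 := by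
    have h6 := h4 Bs F FT h hD τ r t ((s.re / r : ℝ) : ℂ) hτ hrpos
    rw [← hs_eq, hs0, hg] at h6
    rcases mul_eq_zero.1 h6.symm with h7 | h7
    · exact absurd h7 (hfac τ r hτ hrpos)
    · exact h7
  rcases le_total |s.re / r| (1 / 2) with hz | hz
  · -- near the line
    have h6 := hN (r * Om t) _ (hOmN.trans hcOm) (NG_mono hNG (min_le_right _ _) hapos)
      ((s.re / r : ℝ) : ℂ) (by rw [Complex.ofReal_re]; exact hz)
      (by rw [Complex.ofReal_im]; simp) hzero
    rw [Complex.ofReal_re] at h6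
    obtain ⟨h7, h8⟩ := h6
    have hsre0 : s.re = 0 := by
      rcases div_eq_zero_iff.1 h7 with h9 | h9
      · exact h9
      · exact absurd h9 hrpos.ne'
    rcases hsbad with h9 | h9
    · exact h9 hsre0
    · apply h8
      have h10 : (fun w : ℂ => FT τ (I * t + r * w)) = fun w : ℂ =>
          ((r / (2 * Real.sqrt (Real.pi * τ)) : ℝ) : ℂ) *
            UU (r * Om t / 2) (fun z => F (I * t + r * z)) w := by
        funext w
        rw [h4 Bs F FT h hD τ r t w hτ hrpos, hg]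
      have h11 : deriv (fun w : ℂ => FT τ (I * t + r * w)) ((s.re / r : ℝ) : ℂ) =
          r * deriv (FT τ) s := by
        have e1 : deriv (fun w : ℂ => FT τ (I * t + r * w)) ((s.re / r : ℝ) : ℂ) =
            (r : ℂ) • deriv (fun y : ℂ => FT τ (I * t + y)) ((r : ℂ) * ((s.re / r : ℝ) : ℂ)) :=
          deriv_comp_mul_left (r : ℂ) (fun y : ℂ => FT τ (I * t + y)) ((s.re / r : ℝ) : ℂ)
        rw [e1, deriv_comp_const_add, smul_eq_mul, ← hs_eq]
      rw [h9, mul_zero, h10, deriv_const_mul_field] at h11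
      rcases mul_eq_zero.1 h11 with h12 | h12
      · exact absurd h12 (hfac τ r hτ hrpos)
      · exact h12
  · rcases le_total |s.re / r| 6 with hz6 | hz6
    · refine no_zero le_rfl hNG ?_ (s.re / r) hz hz6 hzero
      intro z hz1 hz2 hz3
      exact hA (r * Om t) (r * Om t / 2) _ (hOmA.trans hcOm) le_rfl
        (NG_mono hNG (min_le_left _ _) hapos) z hz1 hz2 hz3
    · -- the scale `ρ = |Re s| / 6`
      have h6r : 6 * r ≤ |s.re| := by
        rw [abs_div, abs_of_pos hrpos, le_div_iff₀ hrpos] at hz6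
        exact hz6
      obtain ⟨ρ, hρ⟩ : ∃ ρ : ℝ, ρ = |s.re| / 6 := ⟨_, rfl⟩
      have hrρ : r ≤ ρ := by rw [hρ]; linarith
      have hρ0 : 0 < ρ := hrpos.trans_le hrρ
      have hρX : ρ ≤ max X Bs := by
        refine le_trans ?_ (le_max_right _ _)
        rw [hρ]; linarith [abs_nonneg s.re]
      have hgρ : ρ ^ 2 / (4 * τ) = ρ ^ 2 * Om t / (2 * r) := by
        rw [hr]; field_simp; norm_num
      have hg2 : 2 * ρ ^ 2 ≤ ρ ^ 2 * Om t / (2 * r) := by
        rw [le_div_iff₀ (by positivity)]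
        have h7 : 4 * r ≤ Om t := by linarith
        have h8 := mul_le_mul_of_nonneg_left h7 (sq_nonneg ρ)
        linarith
      have hag : ρ * Om t / 2 ≤ ρ ^ 2 * Om t / (2 * r) := by
        rw [div_le_div_iff₀ two_pos (by positivity)]
        have h8 : (ρ * Om t) * r ≤ (ρ * Om t) * ρ := mul_le_mul_of_nonneg_left hrρ (by positivity)
        nlinarith
      have hNGρ : NG (1 / 2) (ρ * Om t) (ρ ^ 2 * Om t / (2 * r)) (min ηA ηN) (fun z => F (I * t + (ρ : ℂ) * z)) :=
        hU1 t ρ (ρ ^ 2 * Om t / (2 * r)) htT1 (hcr.trans hrρ) hρX hg2 (FarOK_mono' hfart (le_max_left _ _)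
          (min_le_left _ _) h2η1 hOmpos.le)
      have hsρ : s = I * (t : ℂ) + ((ρ : ℝ) : ℂ) * ((s.re / ρ : ℝ) : ℂ) := by
        apply Complex.ext
        · simp only [Complex.add_re, Complex.mul_re, Complex.I_re, Complex.I_im, Complex.ofReal_re,
            Complex.ofReal_im]
          field_simp
          ring
        · simp only [Complex.add_im, Complex.mul_im, Complex.I_re, Complex.I_im, Complex.ofReal_re,
            Complex.ofReal_im]
          rw [hsim]; ring
      have hzeroρ : UU (ρ ^ 2 * Om t / (2 * r)) (fun z => F (I * t + (ρ : ℂ) * z)) ((s.re / ρ : ℝ) : ℂ) = 0 := by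
        have h6 := h4 Bs F FT h hD τ ρ t ((s.re / ρ : ℝ) : ℂ) hτ hρ0
        rw [← hsρ, hs0, hgρ] at h6
        rcases mul_eq_zero.1 h6.symm with h7 | h7
        · exact absurd h7 (hfac τ ρ hτ hρ0)
        · exact h7
      have hzρ : |s.re / ρ| = 6 := by
        rw [abs_div, abs_of_pos hρ0, div_eq_iff hρ0.ne', hρ]
        ring
      have hcρ : c * Om t ≤ ρ * Om t := mul_le_mul_of_nonneg_right (hcr.trans hrρ) hOmpos.le
      refine no_zero le_rfl hNGρ ?_ (s.re / ρ) (by rw [hzρ]; norm_num) hzρ.le hzeroρ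
      intro z hz1 hz2 hz3
      exact hA (ρ * Om t) (ρ ^ 2 * Om t / (2 * r)) _ (hOmA.trans hcρ) hag
        (NG_mono hNGρ (min_le_left _ _) (by positivity)) z hz1 hz2 hz3

end Pool.Agent.R838.LD.Y46
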