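import Pool.Agent.R838.LD.Hdy
import Pool.Agent.Y671.GL.Shift

set_option autoImplicit false

/-!
# Counting the exceptional zeros of the heat flow, arbitrary degree

Variant of the corresponding parts of the starting modules `Pool.Agent.Y671.GL.Cnt` and `Shift` (by helper671).
-/

namespace Pool.Agent.R838.LD

open Complex Filter Topology Set
open scoped ComplexConjugate
open Pool.Agent.W169.HF (heat Slow)
open Pool.Agent.Y671.LD (bad badH order_const_mul iter_diff)
open Pool.Agent.Y671.GL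
open Pool.Agent.Y693.GL (GY)

section flow

variable {κ : ℝ} {H X Z : ℂ → ℂ}

/-- **Counting, heat flow.** -/
theorem countHY (hκ : 1 / 2 ≤ κ) (hG : GY κ H X Z) (hA : AppX X)
    (hst : ∀ s : ℂ, X s = 0 → |s.re| ≤ 1 / 2) (hH : HugeX X) :
    ∃ c C : ℝ, 0 < c ∧ 0 < C ∧ ∀ t T : ℝ, 0 < t → t ≤ 1 / 8 → 2 ≤ T →
      (nu (heat t X) (EH X 0 t T) : ℝ) ≤ C * Real.exp (-(c * t * Real.log T ^ 2)) * nu (heat t X) (ZH X t T) ∧
      (nu (heat t X) (EH X 0 t T) : ℝ) ≤ C * Real.exp (-(c * t * Real.log T ^ 2)) * T * Real.log T := by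
  have hfinZ := fun (t : ℝ) (ht : 0 ≤ t) (T : ℝ) => ZH_fin hκ hG.cg hA hst ht T
  have hsub : ∀ t T, EH X 0 t T ⊆ ZH X t T := fun t T s h => h.1
  obtain ⟨c, C, hc, hC, hfin⟩ := hdy κ H X Z hκ hG hst hH
  obtain ⟨X0, T1, hX0, hT1, hhuge⟩ := hH
  obtain ⟨c2, T0, hc2, hT0, htot⟩ := Pool.Agent.Y67.GL.toth κ H X Z hκ hG.cg hst X0 hX0
  obtain ⟨T2, hT2⟩ : ∃ T2 : ℝ, T2 = max T0 T1 := ⟨_, rfl⟩
  have hexc : ∀ t T : ℝ, 0 < t → t ≤ 1 / 8 → 2 ≤ T →
      (nu (heat t X) (EH X 0 t T) : ℝ) ≤ C * T * Real.log T * Real.exp (-(c * t * Real.log T ^ 2)) := by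
    intro t T ht ht' hT
    refine nu_le ((hfinZ t ht.le T).subset (hsub t T)) fun S hS => hfin T t hT ht ht' S fun s hs => ?_
    obtain ⟨⟨h1, h2, h3⟩, h4⟩ := hS s hs
    exact ⟨⟨h1, h4⟩, h2, h3⟩
  refine ⟨c, C + C / c2 + Real.exp (c * Real.log T2 ^ 2), hc, by positivity, ?_⟩
  intro t T ht ht' hT
  have hE := Real.exp_pos (-(c * t * Real.log T ^ 2))
  have hl0 : 0 < Real.log T := Real.log_pos (by linarith)
  have hZ0 : (0 : ℝ) ≤ nu (heat t X) (ZH X t T) := Nat.cast_nonneg _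
  have hT00 : 0 < T := by linarith
  refine ⟨?_, ?_⟩
  · rcases lt_or_ge T T2 with hT3 | hT3
    · have h4 : 1 ≤ Real.exp (c * Real.log T2 ^ 2) * Real.exp (-(c * t * Real.log T ^ 2)) := by
        rw [← Real.exp_add]
        apply Real.one_le_exp
        have h5 : Real.log T ≤ Real.log T2 := Real.log_le_log hT00 hT3.le
        have h6 : Real.log T ^ 2 ≤ Real.log T2 ^ 2 := by
          apply pow_le_pow_left₀ hl0.le h5
        have h7 : t * Real.log T ^ 2 ≤ 1 * Real.log T2 ^ 2 := by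
          apply mul_le_mul (by linarith) h6 (by positivity) (by norm_num)
        nlinarith
      calc (nu (heat t X) (EH X 0 t T) : ℝ) ≤ nu (heat t X) (ZH X t T) := nu_mono (hfinZ t ht.le T) (hsub t T)
        _ = 1 * nu (heat t X) (ZH X t T) := by ring
        _ ≤ (Real.exp (c * Real.log T2 ^ 2) * Real.exp (-(c * t * Real.log T ^ 2))) *
            nu (heat t X) (ZH X t T) := by gcongr
        _ ≤ _ := by
          have : 0 ≤ (C + C / c2) * Real.exp (-(c * t * Real.log T ^ 2)) * nu (heat t X) (ZH X t T) := by positivity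
          linarith
    · have hT4 : T0 ≤ T := by rw [hT2] at hT3; exact (le_max_left _ _).trans hT3
      have hT5 : T1 ≤ T := by rw [hT2] at hT3; exact (le_max_right _ _).trans hT3
      rcases le_or_gt (t * Real.log T) X0 with hX | hX
      · obtain ⟨S, hS, h7⟩ := htot T t hT4 ht.le ht' hX
        have h7' : c2 * T * Real.log T ≤ nu (heat t X) (ZH X t T) :=
          h7.trans (le_nu (hfinZ t ht.le T) S hS)
        have h8 := hexc t T ht ht' hT
        have h9 : C * T * Real.log T * Real.exp (-(c * t * Real.log T ^ 2)) ≤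
            C / c2 * Real.exp (-(c * t * Real.log T ^ 2)) * nu (heat t X) (ZH X t T) := by
          calc C * T * Real.log T * Real.exp (-(c * t * Real.log T ^ 2)) =
              C / c2 * Real.exp (-(c * t * Real.log T ^ 2)) * (c2 * T * Real.log T) := by
                field_simp
            _ ≤ _ := by gcongr
        have h10 : 0 ≤ (C + Real.exp (c * Real.log T2 ^ 2)) * Real.exp (-(c * t * Real.log T ^ 2)) *
            nu (heat t X) (ZH X t T) := by
          positivity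
        linarith
      · have h5 : EH X 0 t T = ∅ := by
          rw [Set.eq_empty_iff_forall_notMem]
          rintro s ⟨⟨h6, h7, h8⟩, h9⟩
          refine hhuge s.im t s (by linarith) ht ht' ?_ rfl ⟨h6, h9⟩
          have h10 : Real.log T ≤ Real.log s.im := Real.log_le_log hT00 h7.le
          have h11 : t * Real.log T ≤ t * Real.log s.im := by gcongr
          linarith
        rw [h5]
        have h6 : (nu (heat t X) ∅ : ℝ) = 0 := by
          unfold nu
          simp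
        rw [h6]
        positivity
  · have h8 := hexc t T ht ht' hT
    have h9 : 0 ≤ (C / c2 + Real.exp (c * Real.log T2 ^ 2)) *
        Real.exp (-(c * t * Real.log T ^ 2)) * T * Real.log T := by
      positivity
    linarith

end flow

section shift

variable {Λ : ℂ → ℂ} {u : ℂ} {a : ℝ}

/-- **Heat flow**, in terms of `Λ`. -/
theorem countHY_shift {κ : ℝ} {H Z : ℂ → ℂ} (hκ : 1 / 2 ≤ κ) (hu : u ≠ 0)
    (hG : GY κ H (fun z => u * Λ ((a : ℂ) + z)) Z) (hA : AppX (fun z => u * Λ ((a : ℂ) + z)))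
    (hst : ∀ s : ℂ, (fun z => u * Λ ((a : ℂ) + z)) s = 0 → |s.re| ≤ 1 / 2)
    (hH : HugeX (fun z => u * Λ ((a : ℂ) + z))) :
    (∀ t T : ℝ, 0 ≤ t → (ZH Λ t T).Finite) ∧ ∃ c C : ℝ, 0 < c ∧ 0 < C ∧
      ∀ t T : ℝ, 0 < t → t ≤ 1 / 8 → 2 ≤ T →
      (nu (heat t Λ) (EH Λ a t T) : ℝ) ≤ C * Real.exp (-(c * t * Real.log T ^ 2)) * nu (heat t Λ) (ZH Λ t T) ∧
      (nu (heat t Λ) (EH Λ a t T) : ℝ) ≤ C * Real.exp (-(c * t * Real.log T ^ 2)) * T * Real.log T := by
  obtain ⟨hd, -⟩ := hht_of hκ hG.cg hA hst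
  have hΛ : ∀ t : ℝ, 0 ≤ t → Differentiable ℂ (heat t Λ) := by
    intro t ht
    have h1 : Differentiable ℂ (fun s => u⁻¹ * heat t (fun z => u * Λ ((a : ℂ) + z)) (s - a)) :=
      ((hd t ht).comp (by fun_prop)).const_mul _
    have h2 : (fun s => u⁻¹ * heat t (fun z => u * Λ ((a : ℂ) + z)) (s - a)) = heat t Λ := by
      rw [heat_shift']
      funext s
      simp only [add_sub_cancel]
      rw [inv_mul_cancel_left₀ hu]
    rwa [h2] at h1
  have hfin := fun (t : ℝ) (ht : 0 ≤ t) (T : ℝ) => ZH_fin hκ hG.cg hA hst ht T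
  obtain ⟨c, C, hc, hC, h1⟩ := countHY hκ hG hA hst hH
  have e1 : ∀ (t T : ℝ), 0 ≤ t → nu (heat t (fun z => u * Λ ((a : ℂ) + z)))
      (ZH (fun z => u * Λ ((a : ℂ) + z)) t T) = nu (heat t Λ) (ZH Λ t T) := by
    intro t T ht
    rw [← ZH_image (Λ := Λ) (a := a) hu, heat_shift' u a Λ t, nu_shift (hΛ t ht) hu a (hfin t ht T)]
  have e2 : ∀ (t T : ℝ), 0 ≤ t → nu (heat t (fun z => u * Λ ((a : ℂ) + z)))
      (EH (fun z => u * Λ ((a : ℂ) + z)) 0 t T) = nu (heat t Λ) (EH Λ a t T) := by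
    intro t T ht
    rw [← EH_image (Λ := Λ) (a := a) hu, heat_shift' u a Λ t,
      nu_shift (hΛ t ht) hu a ((hfin t ht T).subset fun s h => h.1)]
  refine ⟨fun t T ht => ?_, c, C, hc, hC, fun t T ht ht' hT => ?_⟩
  · rw [← ZH_image (a := a) hu]
    exact (hfin t ht T).image _
  · rw [← e1 t T ht.le, ← e2 t T ht.le]
    exact h1 t T ht ht' hT

end shift

end Pool.Agent.R838.LD
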