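import Pool.Agent.R838.LD.SpecH

/-! Tasks DYH, FINH: counting bad zeros of the heat flow, all times (port of `Pool.Agent.W928.SD.Dyh`). -/

set_option autoImplicit false

namespace Pool.Agent.R838.LD.Y287Dyh

open Complex Filter Topology MeasureTheory Set
open Pool.Agent.H24R2.JP (Om)
open Pool.Agent.W186.SD (S_COV)
open Pool.Agent.Y671.LD

theorem dyh (h1 : SH_MIDH) (h2 : SH_BIGM) (h5 : SH_UNIT) (h6 : S_COV) : SH_DYH := by
  intro B F FT h hd
  obtain ⟨cM, CM, c0, a0, TM, hcM, hCM, hc0, ha0, hTM, hM⟩ := h1 B F FT h hd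
  obtain ⟨X0, TX, hX0, hTX, hHuge⟩ := hd.huge
  obtain ⟨C1, TU1, hC1, hTU1, hU1⟩ := h5 B F FT h hd 1 one_pos
  set X : ℝ := max (2 * X0) c0 with hX
  have hXpos : 0 < X := hc0.trans_le (le_max_right _ _)
  obtain ⟨CU, TU, hCU, hTU, hU⟩ := h5 B F FT h hd X hXpos
  obtain ⟨R, ε0, η, TB, hR, hε0, hη, hTB, hB⟩ :=
    h2 B F FT h hd c0 X hc0 (le_max_right _ _)
  obtain ⟨cT, CT, TT, hcT, hCT, hTT, hT⟩ := hd.top R ε0 η hR hε0 hη
  set c : ℝ := min (cM / 2) (cT / X0) with hc
  have hcpos : 0 < c := lt_min (by positivity) (by positivity)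
  have hcM' : c ≤ cM / 2 := min_le_left _ _
  have hcT' : c * X0 ≤ cT := by
    have h : c ≤ cT / X0 := min_le_right _ _
    rwa [le_div_iff₀ (by linarith)] at h
  refine ⟨c, Real.exp (2 * c * a0) * (4 * C1) + CM + 2 * CU * CT,
    TM + TX + TU1 + TU + TB + TT + Real.exp (4 * a0) + 2, hcpos, by positivity, ?_, ?_⟩
  · have := Real.exp_pos (4 * a0)
    linarith
  intro T τ hT0 hτ hτ8 S hS
  have hexp := Real.exp_pos (4 * a0)
  have hTM' : TM ≤ T := by linarith
  have hTX' : TX ≤ T := by linarith
  have hTU1' : TU1 ≤ T := by linarith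
  have hTU' : TU ≤ T := by linarith
  have hTB' : TB ≤ T := by linarith
  have hTT' : TT ≤ T := by linarith
  have hTe : Real.exp (4 * a0) ≤ T := by linarith
  have hT2 : 2 ≤ T := by linarith
  have hTpos : 0 < T := by linarith
  set L : ℝ := Real.log T with hL
  have hL4 : 4 * a0 ≤ L := by
    rw [hL, ← Real.log_exp (4 * a0)]
    exact Real.log_le_log hexp hTe
  have hLpos : 0 < L := by linarith
  have hOm : Om T = L / 2 := rfl
  have hLog2 : Real.log (2 * T) ≤ 2 * L := by
    rw [Real.log_mul (by norm_num) hTpos.ne']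
    have : Real.log 2 ≤ Real.log T := Real.log_le_log (by norm_num) hT2
    linarith
  have hOmlow : ∀ s ∈ S, Om T ≤ Om s.im := by
    intro s hs
    have h := (hS s hs).2.1
    unfold Om
    have := Real.log_le_log hTpos h.le
    linarith
  have hlogup : ∀ s ∈ S, Real.log s.im ≤ 2 * L := by
    intro s hs
    have h := (hS s hs).2
    exact (Real.log_le_log (by linarith [h.1]) h.2).trans hLog2
  have hOmup : ∀ s ∈ S, Om s.im ≤ L := by
    intro s hs
    have := hlogup s hs
    unfold Om
    linarith
  have hord : ∀ s : ℂ, (0:ℝ) ≤ (analyticOrderNatAt (FT τ) s : ℝ) := fun s => Nat.cast_nonneg _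
  -- the three contributions are nonnegative
  have hA1 : 0 ≤ Real.exp (2 * c * a0) * (4 * C1) := by positivity
  have hA3 : 0 ≤ 2 * CU * CT := by positivity
  have hE : 0 < Real.exp (-(c * τ * L ^ 2)) := Real.exp_pos _
  have hTEL : 0 ≤ T * Real.exp (-(c * τ * L ^ 2)) * L := by positivity
  have hgoal : ∀ A : ℝ, A ≤ Real.exp (2 * c * a0) * (4 * C1) + CM + 2 * CU * CT →
      A * (T * Real.exp (-(c * τ * L ^ 2)) * L) ≤
      (Real.exp (2 * c * a0) * (4 * C1) + CM + 2 * CU * CT) * T *
        Real.exp (-(c * τ * L ^ 2)) * L := by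
    intro A hA
    have := mul_le_mul_of_nonneg_right hA hTEL
    linarith
  by_cases hi : 2 * τ * Om T ^ 2 < a0
  · -- small times
    have hτL : τ * L ^ 2 < 2 * a0 := by
      rw [hOm] at hi
      have e1 : 2 * τ * (L / 2) ^ 2 = τ * L ^ 2 / 2 := by ring
      linarith
    have h2τL : 2 * τ * L ≤ 1 := by
      have h7 : (2 * τ * L) * L ≤ 1 * L := by
        have e1 : (2 * τ * L) * L = 2 * (τ * L ^ 2) := by ring
        linarith
      exact le_of_mul_le_mul_right h7 hLpos
    have hcov := h6 S (fun s => (analyticOrderNatAt (FT τ) s : ℝ)) (Icc (T - 1 / 2) (2 * T + 1 / 2))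
      (1 / 2) (T + 1) (C1 * (2 * L)) (by norm_num) (by linarith) (by positivity)
      (fun s _ => hord s) (fun s hs => by
        obtain ⟨-, h7, h8⟩ := hS s hs
        exact Icc_subset_Icc (by linarith) (by linarith))
      (by
        rw [Real.volume_Icc]
        apply le_of_eq
        congr 1
        ring)
      (fun s hs => by
        have h7 : s.im ∈ Ioc T (2 * T) := (hS s hs).2
        refine (hU1 s.im τ (hTU1'.trans h7.1.le) hτ ?_ _ ?_).trans ?_
        · have := hOmup s hs
          calc 2 * τ * Om s.im ≤ 2 * τ * L := by gcongr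
            _ ≤ 1 := h2τL
        · intro s' hs'
          rw [Finset.mem_filter] at hs'
          refine ⟨?_, (hS s' hs'.1).1.1⟩
          have := hs'.2
          norm_num at this
          exact this
        · exact mul_le_mul_of_nonneg_left (hlogup s hs) hC1.le)
    refine hcov.trans ?_
    have h8 : C1 * (2 * L) * ((T + 1) / (2 * (1 / 2))) ≤ 4 * C1 * (T * L) := by
      have : (T + 1) / (2 * (1 / 2)) = T + 1 := by norm_num
      rw [this]
      have h9 : C1 * (2 * L) * (T + 1) ≤ C1 * (2 * L) * (2 * T) :=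
        mul_le_mul_of_nonneg_left (by linarith) (by positivity)
      refine h9.trans (le_of_eq ?_)
      ring
    refine h8.trans ?_
    have h9 : 4 * C1 * (T * L) ≤
        (Real.exp (2 * c * a0) * (4 * C1)) * (T * Real.exp (-(c * τ * L ^ 2)) * L) := by
      have h10 : 1 ≤ Real.exp (2 * c * a0) * Real.exp (-(c * τ * L ^ 2)) := by
        rw [← Real.exp_add]
        apply Real.one_le_exp
        have h12 := mul_nonneg hcpos.le (sub_nonneg.2 hτL.le)
        have e1 : c * (2 * a0 - τ * L ^ 2) = 2 * c * a0 + -(c * τ * L ^ 2) := by ring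
        linarith
      have h11 : 0 ≤ 4 * C1 * (T * L) := by positivity
      have h12 := mul_le_mul_of_nonneg_right h10 h11
      rw [one_mul] at h12
      refine h12.trans (le_of_eq ?_)
      ring
    refine h9.trans (hgoal _ ?_)
    have : 0 ≤ CM := hCM.le
    linarith
  · push Not at hi
    by_cases hii : 2 * τ * Om T ≤ c0
    · refine (hM T τ hTM' hτ hi hii S hS).trans ?_
      have h7 : Real.exp (-(cM * (2 * τ * Om T ^ 2))) ≤ Real.exp (-(c * τ * L ^ 2)) := by
        apply Real.exp_le_exp.2
        rw [hOm]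
        have h8 : 0 ≤ τ * L ^ 2 := by positivity
        have h9 := mul_le_mul_of_nonneg_right hcM' h8
        have e1 : cM * (2 * τ * (L / 2) ^ 2) = cM / 2 * (τ * L ^ 2) := by ring
        have e2 : c * τ * L ^ 2 = c * (τ * L ^ 2) := by ring
        linarith
      refine le_trans ?_ (hgoal CM (by linarith))
      have h8 : CM * T * Real.exp (-(cM * (2 * τ * Om T ^ 2))) * Real.log T ≤
          CM * T * Real.exp (-(c * τ * L ^ 2)) * L := by
        rw [← hL]
        gcongr
      linarith
    · push Not at hii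
      by_cases hiv : X0 ≤ 2 * τ * Om T
      · have hempty : S = ∅ := by
          rw [Finset.eq_empty_iff_forall_notMem]
          intro s hs
          obtain ⟨hb, h7, h8⟩ := hS s hs
          refine hHuge s.im τ s (hTX'.trans h7.le) hτ hτ8 (hiv.trans ?_) rfl hb
          have := hOmlow s hs
          gcongr
        rw [hempty, Finset.sum_empty]
        positivity
      · push Not at hiv
        have hτLX : τ * L ≤ X0 := by
          rw [hOm] at hiv
          linarith
        have hcov := h6 S (fun s => (analyticOrderNatAt (FT τ) s : ℝ))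
          {t : ℝ | T / 2 ≤ t ∧ t ≤ 3 * T ∧ ¬ FarOK F R ε0 η t}
          (1 / 2) (CT * T ^ (1 - cT)) (CU * (2 * L)) (by norm_num) (by positivity) (by positivity)
          (fun s _ => hord s) (fun s hs => by
            obtain ⟨hb, h7, h8⟩ := hS s hs
            intro x hx
            refine ⟨by linarith [hx.1], by linarith [hx.2], fun hF => ?_⟩
            refine hB s.im x τ s (hTB'.trans h7.le) ?_ hτ ?_ ?_ hF rfl hb
            · rw [abs_le]
              constructor <;> linarith [hx.1, hx.2]
            · refine hii.le.trans ?_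
              have := hOmlow s hs
              gcongr
            · refine le_trans ?_ (le_max_left _ _)
              have := hOmup s hs
              calc 2 * τ * Om s.im ≤ 2 * τ * L := by gcongr
                _ ≤ 2 * X0 := by linarith)
          (hT T hTT')
          (fun s hs => by
            have h7 : s.im ∈ Ioc T (2 * T) := (hS s hs).2
            refine (hU s.im τ (hTU'.trans h7.1.le) hτ ?_ _ ?_).trans ?_
            · refine le_trans ?_ (le_max_left _ _)
              have := hOmup s hs
              calc 2 * τ * Om s.im ≤ 2 * τ * L := by gcongr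
                _ ≤ 2 * X0 := by linarith
            · intro s' hs'
              rw [Finset.mem_filter] at hs'
              refine ⟨?_, (hS s' hs'.1).1.1⟩
              have := hs'.2
              norm_num at this
              exact this
            · exact mul_le_mul_of_nonneg_left (hlogup s hs) hCU.le)
        refine hcov.trans ?_
        have h8 : CT * T ^ (1 - cT) / (2 * (1 / 2)) = CT * T ^ (1 - cT) := by norm_num
        rw [h8]
        have h9 : T ^ (1 - cT) ≤ T * Real.exp (-(c * τ * L ^ 2)) := by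
          rw [Real.rpow_sub hTpos, Real.rpow_one, Real.rpow_def_of_pos hTpos, div_eq_mul_inv,
            ← Real.exp_neg, ← hL]
          refine mul_le_mul_of_nonneg_left (Real.exp_le_exp.2 ?_) hTpos.le
          have h10 : c * (τ * L) ≤ c * X0 := mul_le_mul_of_nonneg_left hτLX hcpos.le
          have h11 : c * (τ * L) * L ≤ cT * L :=
            mul_le_mul_of_nonneg_right (h10.trans hcT') hLpos.le
          have e1 : c * τ * L ^ 2 = c * (τ * L) * L := by ring
          linarith
        refine le_trans ?_ (hgoal (2 * CU * CT) (by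
          have : 0 ≤ CM := hCM.le
          linarith))
        calc CU * (2 * L) * (CT * T ^ (1 - cT)) = 2 * CU * CT * (T ^ (1 - cT) * L) := by ring
          _ ≤ 2 * CU * CT * (T * Real.exp (-(c * τ * L ^ 2)) * L) := by gcongr
          _ = 2 * CU * CT * (T * Real.exp (-(c * τ * L ^ 2)) * L) := rfl

theorem finh (h : SH_DYH) : SH_FINH := by
  intro B F FT hh hd
  obtain ⟨c, C, T0, hc, hC, hT0, hD⟩ := h B F FT hh hd
  obtain ⟨C1, hC1⟩ := hd.lowc (2 * T0)
  obtain ⟨C2, hC2⟩ : ∃ C2 : ℝ, C2 = max C1 0 := ⟨_, rfl⟩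
  have hC20 : 0 ≤ C2 := by rw [hC2]; exact le_max_right _ _
  have hC21 : C1 ≤ C2 := by rw [hC2]; exact le_max_left _ _
  obtain ⟨M, hM⟩ : ∃ M : ℝ, M = Real.exp (c * Real.log T0 ^ 2) := ⟨_, rfl⟩
  have hM0 : 0 < M := by rw [hM]; exact Real.exp_pos _
  have hl2 : 0 < Real.log 2 := Real.log_pos (by norm_num)
  refine ⟨c, C + C2 * M / Real.log 2, hc, by positivity, ?_⟩
  intro T τ hT hτ hτ8 S hS
  have hTp : 0 < T := by linarith
  have hL : Real.log 2 ≤ Real.log T := Real.log_le_log (by norm_num) hT
  have hLp : 0 < Real.log T := hl2.trans_le hL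
  have hE : 0 < Real.exp (-(c * τ * Real.log T ^ 2)) := Real.exp_pos _
  by_cases hb : T0 ≤ T
  · refine (hD T τ hb hτ hτ8 S hS).trans ?_
    have h1 : 0 ≤ C2 * M / Real.log 2 * (T * Real.log T * Real.exp (-(c * τ * Real.log T ^ 2))) := by
      positivity
    calc C * T * Real.exp (-(c * τ * Real.log T ^ 2)) * Real.log T
        = C * (T * Real.log T * Real.exp (-(c * τ * Real.log T ^ 2))) := by ring
      _ ≤ C * (T * Real.log T * Real.exp (-(c * τ * Real.log T ^ 2))) +
          C2 * M / Real.log 2 * (T * Real.log T * Real.exp (-(c * τ * Real.log T ^ 2))) := by linarith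
      _ = _ := by ring
  · push Not at hb
    have h1 := hC1 τ hτ.le hτ8 S (fun s hs => by
      obtain ⟨h2, h3, h4⟩ := hS s hs
      refine ⟨?_, h2.1⟩
      rw [abs_le]
      constructor <;> linarith)
    have hlog : Real.log T ≤ Real.log T0 := Real.log_le_log hTp hb.le
    have h2 : c * τ * Real.log T ^ 2 ≤ c * Real.log T0 ^ 2 := by
      have h3 : Real.log T ^ 2 ≤ Real.log T0 ^ 2 := by gcongr
      calc c * τ * Real.log T ^ 2 ≤ c * 1 * Real.log T0 ^ 2 := by
            gcongr
            linarith
        _ = _ := by ring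
    have h3 : 1 ≤ M * Real.exp (-(c * τ * Real.log T ^ 2)) := by
      rw [hM, ← Real.exp_add]
      apply Real.one_le_exp
      linarith
    have h4 : 1 ≤ T * Real.log T / Real.log 2 := by
      rw [le_div_iff₀ hl2]
      nlinarith
    calc ∑ s ∈ S, (analyticOrderNatAt (FT τ) s : ℝ) ≤ C2 := h1.trans hC21
      _ = C2 * (1 * 1) := by ring
      _ ≤ C2 * ((M * Real.exp (-(c * τ * Real.log T ^ 2))) * (T * Real.log T / Real.log 2)) := by
          gcongr
      _ = C2 * M / Real.log 2 * (T * Real.log T * Real.exp (-(c * τ * Real.log T ^ 2))) := by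
          field_simp
      _ ≤ C * (T * Real.log T * Real.exp (-(c * τ * Real.log T ^ 2))) +
          C2 * M / Real.log 2 * (T * Real.log T * Real.exp (-(c * τ * Real.log T ^ 2))) := by
          have : 0 ≤ C * (T * Real.log T * Real.exp (-(c * τ * Real.log T ^ 2))) := by positivity
          linarith
      _ = _ := by ring

end Pool.Agent.R838.LD.Y287Dyh
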