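import Pool.Agent.R838.LD.SpecH
import Pool.Agent.W186.DX.HD

set_option autoImplicit false

/-!
# Growth in units of fixed size
-/

namespace Pool.Agent.R838.LD.Y317

open Complex Filter Topology MeasureTheory Set
open Pool.Agent.H24R2.JP (Om)
open Pool.Agent.Y671.LD (FarOK)
open Pool.Agent.W186.SD (Grow)

/-- moving along a segment -/
lemma path {F : ℂ → ℂ} (hF : Differentiable ℂ F) {p q : ℂ} {M : ℝ}
    (hne : ∀ s ∈ Icc (0 : ℝ) 1, F (p + s * (q - p)) ≠ 0)
    (hM : ∀ s ∈ Icc (0 : ℝ) 1, ((q - p) * logDeriv F (p + s * (q - p))).re ≤ M) :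
    ‖F q‖ ≤ Real.exp M * ‖F p‖ := by
  have key := Pool.Agent.W186.DX.decay (g := fun s : ℝ => F (p + s * (q - p)))
    (c := fun s : ℝ => (q - p) * logDeriv F (p + s * (q - p))) (a := -M) (V := 1) ?_ ?_ 1
    ⟨by norm_num, le_rfl⟩
  · simpa using key
  · intro s hs
    have h1 : HasDerivAt F (deriv F (p + s * (q - p))) (p + s * (q - p)) :=
      (hF _).hasDerivAt
    have h2 : HasDerivAt (fun s : ℝ => p + (s : ℂ) * (q - p)) (1 * (q - p)) s :=
      ((Complex.ofRealCLM.hasDerivAt (x := s)).mul_const (q - p)).const_add p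
    have h4 := HasDerivAt.comp s h1 h2
    refine h4.congr_deriv ?_
    rw [logDeriv_apply]
    have h5 := hne s hs
    field_simp
  · intro s hs
    rw [neg_neg]
    exact hM s hs

lemma far_path {F : ℂ → ℂ} (hd : Differentiable ℂ F) {R ε0 η t : ℝ} (hF : FarOK F R ε0 η t)
    {a b : ℂ} (ha : ε0 ≤ a.re) (hb : ε0 ≤ b.re) (hna : ‖a‖ ≤ R) (hnb : ‖b‖ ≤ R) :
    ‖F (I * t + b)‖ ≤ Real.exp (Om t * (b.re - a.re) + η * Om t * ‖b - a‖) *
      ‖F (I * t + a)‖ := by
  have hpt : ∀ s ∈ Icc (0 : ℝ) 1, ε0 ≤ (a + s * (b - a)).re ∧ ‖a + s * (b - a)‖ ≤ R := by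
    intro s hs
    have e : a + (s : ℂ) * (b - a) = ((1 - s : ℝ) : ℂ) * a + (s : ℂ) * b := by push_cast; ring
    rw [e]
    constructor
    · rw [Complex.add_re, Complex.re_ofReal_mul, Complex.re_ofReal_mul]
      nlinarith [hs.1, hs.2]
    · refine (norm_add_le _ _).trans ?_
      rw [norm_mul, norm_mul, Complex.norm_real, Complex.norm_real, Real.norm_eq_abs,
        Real.norm_eq_abs, abs_of_nonneg hs.1, abs_of_nonneg (sub_nonneg.2 hs.2)]
      nlinarith [hs.1, hs.2]
  have e0 : ∀ s : ℝ, I * (t : ℂ) + a + s * (I * t + b - (I * t + a)) =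
      I * t + (a + s * (b - a)) := fun s => by ring
  refine path hd (fun s hs => ?_) (fun s hs => ?_)
  · rw [e0]
    exact (hF _ (hpt s hs).1 (hpt s hs).2).1
  · rw [e0]
    have h1 := (hF _ (hpt s hs).1 (hpt s hs).2).2
    set l := logDeriv F (I * t + (a + s * (b - a))) with hl
    have e1 : I * (t : ℂ) + b - (I * t + a) = b - a := by ring
    rw [e1]
    have e2 : (b - a) * l = ((Om t : ℝ) : ℂ) * (b - a) + (b - a) * (l - (Om t : ℂ)) := by ring
    rw [e2, Complex.add_re, Complex.re_ofReal_mul, Complex.sub_re]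
    have h2 : ((b - a) * (l - (Om t : ℂ))).re ≤ ‖b - a‖ * (η * Om t) := by
      refine (Complex.re_le_norm _).trans ?_
      rw [norm_mul]
      exact mul_le_mul_of_nonneg_left h1 (norm_nonneg _)
    linarith

lemma exists_Om (B : ℝ) : ∃ T : ℝ, ∀ t : ℝ, T ≤ t → B ≤ Om t := by
  refine ⟨Real.exp (2 * B), fun t ht => ?_⟩
  unfold Pool.Agent.H24R2.JP.Om
  have := Real.log_le_log (Real.exp_pos _) ht
  rw [Real.log_exp] at this
  linarith

/-- the symmetry of the norm -/
lemma norm_F_abs {F : ℂ → ℂ} (hs : ∀ z : ℂ, F (-((starRingEnd ℂ) z)) = (starRingEnd ℂ) (F z))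
    (t : ℝ) (u : ℂ) : ‖F (I * t + u)‖ = ‖F (I * t + ((|u.re| : ℝ) + I * u.im))‖ := by
  have hu : u = (u.re : ℂ) + I * u.im := by
    rw [mul_comm]; exact (Complex.re_add_im u).symm
  rcases le_total 0 u.re with h | h
  · rw [abs_of_nonneg h, ← hu]
  · rw [abs_of_nonpos h]
    have e : I * (t : ℂ) + (((-u.re : ℝ) : ℂ) + I * u.im) = -((starRingEnd ℂ) (I * t + u)) := by
      apply Complex.ext <;> simp [add_comm]
    rw [e, hs, Complex.norm_conj]

/-- the value at the base point -/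
lemma low {B : ℝ} {F : ℂ → ℂ} {FT : ℝ → ℂ → ℂ} {h : ℝ → ℝ} (hD : HD B F FT h) :
    ∃ R0 : ℝ, 1 ≤ R0 ∧ ∀ {c X x : ℝ}, 0 < c → c ≤ X → X ≤ x → R0 ≤ x →
    ∃ T0 : ℝ, ∀ t r R η : ℝ, T0 ≤ t → c ≤ r → r ≤ X → x ≤ R → 0 < η → η * x ≤ c / 2 →
      FarOK F R (min c 1) η t → h t ≤ ‖F (I * t + (r : ℂ))‖ := by
  obtain ⟨R0, K, hR0, hK, hlow⟩ := hD.lowr
  refine ⟨R0, hR0, ?_⟩
  intro c X x hc hcX hxX hxR
  obtain ⟨T, hT, hlowx⟩ := hlow x hxR
  obtain ⟨T1, hT1⟩ := exists_Om (2 * (K * x + K) / c)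
  refine ⟨max T T1, fun t r R η ht hcr hrX hxR' hη hηx hF => ?_⟩
  have ht1 : T ≤ t := (le_max_left _ _).trans ht
  have ht2 : T1 ≤ t := (le_max_right _ _).trans ht
  have hOm := hT1 t ht2
  have hx0 : 0 < x := by linarith
  have hOm' : 2 * (K * x + K) ≤ Om t * c := by
    rwa [div_le_iff₀ hc] at hOm
  have hOm0 : 0 < Om t := by
    by_contra h
    have := mul_nonpos_of_nonpos_of_nonneg (not_lt.1 h) hc.le
    nlinarith
  have hr0 : 0 < r := by linarith
  have hpath := far_path hD.diff hF (a := (r : ℂ)) (b := (x : ℂ))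
    (by rw [Complex.ofReal_re]; exact (min_le_left _ _).trans hcr)
    (by rw [Complex.ofReal_re]; exact (min_le_left _ _).trans (by linarith))
    (by rw [Complex.norm_real, Real.norm_eq_abs, abs_of_pos hr0]; linarith)
    (by rw [Complex.norm_real, Real.norm_eq_abs, abs_of_pos hx0]; exact hxR')
  have hn : ‖(x : ℂ) - (r : ℂ)‖ = x - r := by
    rw [← Complex.ofReal_sub, Complex.norm_real, Real.norm_eq_abs, abs_of_nonneg (by linarith)]
  rw [hn, Complex.ofReal_re, Complex.ofReal_re] at hpath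
  have h1 := hlowx t ht1
  have h2 := h1.trans hpath
  set A := ‖F (I * t + (r : ℂ))‖ with hA
  have hA0 : 0 ≤ A := norm_nonneg _
  have h3 : h t ≤ Real.exp (-((Om t - K) * x - K)) *
      (Real.exp (Om t * (x - r) + η * Om t * (x - r)) * A) := by
    have h4 : h t = Real.exp (-((Om t - K) * x - K)) *
        (h t * Real.exp ((Om t - K) * x - K)) := by
      have : Real.exp (-((Om t - K) * x - K)) * Real.exp ((Om t - K) * x - K) = 1 := by
        rw [← Real.exp_add]; simp
      linear_combination (-h t) * this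
    calc h t = Real.exp (-((Om t - K) * x - K)) *
        (h t * Real.exp ((Om t - K) * x - K)) := h4
      _ ≤ _ := mul_le_mul_of_nonneg_left h2 (by positivity)
  refine h3.trans ?_
  rw [← mul_assoc, ← Real.exp_add]
  refine mul_le_of_le_one_left hA0 (Real.exp_le_one_iff.2 ?_)
  have h7 : η * Om t * (x - r) ≤ Om t * (c / 2) := by
    have : η * (x - r) ≤ c / 2 := by nlinarith
    nlinarith
  nlinarith

lemma num_far {u r g y K2 : ℝ} (hr : 0 < r) (hK2 : 1 ≤ K2) (hu : u = r * y) (hu0 : 0 < u)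
    (h32 : 32 * r ≤ u) (h6 : (128 * K2) ^ 4 ≤ u) (hg : 2 * r ^ 2 ≤ g) :
    K2 * u ^ (7 / 4 : ℝ) ≤ g / 64 * (y - 16) ^ 2 := by
  have h5 : K2 * u ^ (7 / 4 : ℝ) ≤ u ^ 2 / 128 := by
    have h7 : 128 * K2 ≤ u ^ (1 / 4 : ℝ) := by
      have : ((128 * K2) ^ 4) ^ (1 / 4 : ℝ) ≤ u ^ (1 / 4 : ℝ) :=
        Real.rpow_le_rpow (by positivity) h6 (by norm_num)
      rwa [← Real.rpow_natCast (128 * K2) 4, ← Real.rpow_mul (by positivity),
        show ((4 : ℕ) : ℝ) * (1 / 4) = 1 by norm_num, Real.rpow_one] at this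
    have h8 : u ^ (7 / 4 : ℝ) * u ^ (1 / 4 : ℝ) = u ^ 2 := by
      rw [← Real.rpow_add hu0, ← Real.rpow_natCast u 2]
      norm_num
    rw [le_div_iff₀ (by norm_num), ← h8]
    have h9 : 0 ≤ u ^ (7 / 4 : ℝ) := by positivity
    have h9' := mul_le_mul_of_nonneg_left h7 h9
    linarith
  refine h5.trans ?_
  have h11 : u / 2 ≤ r * (y - 16) := by
    have : r * (y - 16) = u - 16 * r := by rw [hu]; ring
    rw [this]
    linarith
  have h12 : (u / 2) ^ 2 ≤ (r * (y - 16)) ^ 2 := pow_le_pow_left₀ (by linarith) h11 2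
  have h13 : 2 * r ^ 2 * (y - 16) ^ 2 ≤ g * (y - 16) ^ 2 :=
    mul_le_mul_of_nonneg_right hg (sq_nonneg _)
  have h14 : (r * (y - 16)) ^ 2 = r ^ 2 * (y - 16) ^ 2 := by ring
  have h15 : (u / 2) ^ 2 = u ^ 2 / 4 := by ring
  rw [h14, h15] at h12
  have h16 : g / 64 * (y - 16) ^ 2 = g * (y - 16) ^ 2 / 64 := by ring
  rw [h16]
  linarith

theorem gr1 : SH_GR1 := by
  intro B F FT h hD c X hc hcX
  obtain ⟨R0, hR0, hlow⟩ := low hD
  obtain ⟨R1, K, T1, hR1, hK1, hT1, hright⟩ := hD.right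
  obtain ⟨K2, T2, hK2, hT2, hup⟩ := hD.up
  obtain ⟨K3, T6, hK3, hT6, hline⟩ := hD.line
  have hX0 : 0 < X := hc.trans_le hcX
  set x : ℝ := max (max R0 R1) X with hx
  have hxR : R0 ≤ x := (le_max_left _ _).trans (le_max_left _ _)
  have hxR1 : R1 ≤ x := (le_max_right _ _).trans (le_max_left _ _)
  have hxX : X ≤ x := le_max_right _ _
  have hx1 : 1 ≤ x := hR0.trans hxR
  obtain ⟨T3, hT3⟩ := hlow hc hcX hxX hxR
  set R : ℝ := x + 12 * X with hR
  set η : ℝ := min 1 c / (2 * R) with hη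
  have hRpos : 0 < R := by rw [hR]; linarith
  have hη0 : 0 < η := by rw [hη]; exact div_pos (lt_min one_pos hc) (by linarith)
  have hηR : η * R ≤ c / 2 := by
    have : η * R = min 1 c / 2 := by rw [hη]; field_simp
    rw [this]
    have := min_le_right 1 c
    linarith
  obtain ⟨T4, hT4⟩ := exists_Om (2 * K + 11 * K * X + 11 * K3 * X)
  set T5 : ℝ := 12 * (128 * K2) ^ 4 with hT5
  refine ⟨R, η, 2 + |T1| + 2 * |T2| + |T3| + |T4| + |T6| + T5 + 1000 * X, by linarith, hη0, ?_, ?_⟩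
  · have : 0 ≤ T5 := by positivity
    have := abs_nonneg T1; have := abs_nonneg T2; have := abs_nonneg T3; have := abs_nonneg T4
    have := abs_nonneg T6
    linarith
  intro t r g ht hcr hrX hg hF z hzim hzre
  have a1 := abs_nonneg T1
  have a2 := abs_nonneg T2
  have a3 := abs_nonneg T3
  have a4 := abs_nonneg T4
  have a6 := abs_nonneg T6
  have b1 := le_abs_self T1
  have b2 := le_abs_self T2
  have b3 := le_abs_self T3
  have b4 := le_abs_self T4
  have b6 := le_abs_self T6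
  have hT50 : 0 ≤ T5 := by positivity
  have htX : 1000 * X ≤ t := by linarith
  have htT5 : T5 ≤ t := by linarith
  have hbase := hT3 t r R η (by linarith) hcr hrX (by linarith) hη0
    (by
      refine le_trans ?_ hηR
      exact mul_le_mul_of_nonneg_left (by linarith) hη0.le) hF
  have hOm := hT4 t (by linarith)
  have hKX : 0 ≤ K * X := by positivity
  have hKX3 : 0 ≤ K3 * X := by positivity
  have hOm1 : 2 * K + 11 * K * X ≤ Om t := by linarith
  have hOm2 : 11 * K3 * X ≤ Om t := by linarith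
  have hOm0 : 0 < Om t := by linarith
  have hr0 : 0 < r := hc.trans_le hcr
  simp only [mul_one]
  set A := ‖F (I * t + (r : ℂ))‖ with hA
  have hA0 : 0 ≤ A := norm_nonneg _
  set u : ℝ := r * |z.re| with hu
  set v : ℝ := r * z.im with hv
  have hv1 : |v| ≤ 11 * r := by
    rw [hv, abs_mul, abs_of_pos hr0]; nlinarith
  have hv2 : |v| ≤ 11 * X := hv1.trans (by linarith)
  have hu16 : 16 * r ≤ u := by rw [hu]; nlinarith
  have hu0 : 0 < u := by linarith
  have hsym : ‖F (I * t + (r : ℂ) * z)‖ = ‖F (I * t + ((u : ℂ) + I * v))‖ := by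
    rw [norm_F_abs hD.symm t ((r : ℂ) * z)]
    rw [Complex.re_ofReal_mul, Complex.im_ofReal_mul, abs_mul, abs_of_pos hr0]
  rw [hsym]
  have hexp : 2 * (r * Om t) * |z.re| = 2 * Om t * u := by rw [hu]; ring
  rw [hexp]
  have hg0 : 0 ≤ g / 64 * (|z.re| - 16) ^ 2 := by
    have : 0 ≤ g := le_trans (by positivity) hg
    positivity
  have hwn : ‖(u : ℂ) + I * v‖ ≤ u + |v| := by
    refine (norm_add_le _ _).trans ?_
    rw [norm_mul, Complex.norm_I, one_mul, Complex.norm_real, Complex.norm_real, Real.norm_eq_abs,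
      Real.norm_eq_abs, abs_of_pos hu0]
  have hwre : ((u : ℂ) + I * v).re = u := by simp
  rcases le_or_gt u x with hcase | hcase
  · -- near
    have h1 := far_path hD.diff hF (a := (r : ℂ)) (b := (u : ℂ) + I * v)
      (by rw [Complex.ofReal_re]; exact (min_le_left _ _).trans hcr)
      (by rw [hwre]; exact (min_le_left _ _).trans (by linarith))
      (by rw [Complex.norm_real, Real.norm_eq_abs, abs_of_pos hr0]; linarith)
      (by refine hwn.trans ?_; rw [hR]; linarith)
    rw [hwre, Complex.ofReal_re] at h1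
    refine h1.trans ?_
    rw [mul_comm A]
    refine mul_le_mul_of_nonneg_right (Real.exp_le_exp.2 ?_) hA0
    have h2 : ‖(u : ℂ) + I * v - (r : ℂ)‖ ≤ R := by
      refine (norm_sub_le _ _).trans ?_
      rw [Complex.norm_real, Real.norm_eq_abs, abs_of_pos hr0, hR]
      linarith
    have h3 : η * Om t * ‖(u : ℂ) + I * v - (r : ℂ)‖ ≤ Om t * (c / 2) := by
      calc η * Om t * ‖(u : ℂ) + I * v - (r : ℂ)‖ ≤ η * Om t * R :=
            mul_le_mul_of_nonneg_left h2 (by positivity)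
        _ = Om t * (η * R) := by ring
        _ ≤ _ := mul_le_mul_of_nonneg_left hηR hOm0.le
    have h4 : Om t * (c / 2) ≤ Om t * u := mul_le_mul_of_nonneg_left (by linarith) hOm0.le
    have h5 : Om t * (u - r) ≤ Om t * u := mul_le_mul_of_nonneg_left (by linarith) hOm0.le
    linarith
  rcases le_or_gt u (t / 12) with hcase2 | hcase2
  · -- middle
    have hw8 : ‖(u : ℂ) + I * v‖ ≤ t / 8 := by linarith
    have hup2 := hright t ((u : ℂ) + I * v) (by linarith) (by rw [hwre]; linarith) hw8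
    rw [hwre] at hup2
    refine hup2.trans ?_
    refine mul_le_mul hbase (Real.exp_le_exp.2 ?_) (Real.exp_pos _).le hA0
    have h0 : K * (‖(u : ℂ) + I * v‖ + 1) ≤ K * (u + 11 * X + 1) :=
      mul_le_mul_of_nonneg_left (by linarith) (by linarith)
    have hu1 : 1 ≤ u := by linarith
    have h3 : (2 * K + 11 * K * X) * u ≤ Om t * u :=
      mul_le_mul_of_nonneg_right hOm1 hu0.le
    have h4 : 11 * K * X ≤ 11 * K * X * u := by
      have : 0 ≤ 11 * K * X := by positivity
      exact le_mul_of_one_le_right this hu1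
    have h5 : K ≤ K * u := le_mul_of_one_le_right (by linarith) hu1
    linarith
  · -- far
    have hv3 := abs_le.1 hv2
    have hXB1 := (hup (t + v) (u : ℂ) (by linarith) (by simp)).2
      (by rw [Complex.ofReal_re, abs_of_pos hu0]; linarith)
    rw [Complex.ofReal_re, abs_of_pos hu0] at hXB1
    have e1 : I * ((t + v : ℝ) : ℂ) + (u : ℂ) = I * t + ((u : ℂ) + I * v) := by
      push_cast; ring
    rw [e1] at hXB1
    have hH := hline t v (by linarith) (by linarith)
    have h1 : ‖F (I * t + ((u : ℂ) + I * v))‖ ≤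
        A * Real.exp (K3 * (11 * X) + K2 * u ^ (7 / 4 : ℝ)) := by
      refine hXB1.trans ?_
      rw [Real.exp_add, ← mul_assoc]
      refine mul_le_mul_of_nonneg_right ?_ (Real.exp_pos _).le
      refine hH.trans (mul_le_mul hbase (Real.exp_le_exp.2 ?_) (Real.exp_pos _).le hA0)
      exact mul_le_mul_of_nonneg_left hv2 (by linarith)
    refine h1.trans (mul_le_mul_of_nonneg_left (Real.exp_le_exp.2 ?_) hA0)
    -- the exponent
    have hu1 : 1 ≤ u := by linarith
    have h2 : K3 * (11 * X) ≤ 2 * Om t * u := by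
      have h3 : (11 * K3 * X) * u ≤ Om t * u :=
        mul_le_mul_of_nonneg_right hOm2 hu0.le
      have h4 : 11 * K3 * X ≤ 11 * K3 * X * u := by
        have : 0 ≤ 11 * K3 * X := by positivity
        exact le_mul_of_one_le_right this hu1
      have h4' : 0 ≤ Om t * u := by positivity
      linarith
    have h6 : (128 * K2) ^ 4 ≤ u := by
      have : T5 / 12 ≤ u := by linarith
      rw [hT5] at this
      linarith
    have h5 := num_far hr0 hK2 hu (by linarith) (by linarith) h6 hg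
    linarith

end Pool.Agent.R838.LD.Y317
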