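import Pool.Agent.R838.LD.SpecH

set_option autoImplicit false

/-! Task MIDH: counting bad zeros of the heat flow, small radius (port of `Pool.Agent.W32.SD.Midh`). -/

namespace Pool.Agent.R838.LD.Y287Midh

open Complex Filter Topology MeasureTheory Set
open Pool.Agent.H24R2.JP (Om)
open Pool.Agent.H24R2.DZ (ra NN)
open Pool.Agent.W186.SD (UU NG Grow Std S_COV)
open Pool.Agent.Y671.LD

lemma nn_mono {a η η' : ℝ} {F : ℂ → ℂ} (ha : 0 ≤ a) (h : η ≤ η') (hN : NN a η F) : NN a η' F where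
  diff := hN.diff
  symm := hN.symm
  far := fun z h1 h2 => ⟨(hN.far z h1 h2).1,
    (hN.far z h1 h2).2.trans (mul_le_mul_of_nonneg_right h ha)⟩
  near := hN.near

lemma far_mono {F : ℂ → ℂ} {R R' e η η' t : ℝ} (hR : R' ≤ R) (h : η ≤ η') (ht : 0 ≤ Om t)
    (hF : FarOK F R e η t) : FarOK F R' e η' t := fun z h1 h2 => ⟨(hF z h1 (h2.trans hR)).1,
      (hF z h1 (h2.trans hR)).2.trans (mul_le_mul_of_nonneg_right h ht)⟩

lemma top_mono {F : ℂ → ℂ} {R R' η η' t : ℝ} (hR : R' ≤ R) (h : η ≤ η') (ht : 2 ≤ t)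
    (hF : TopOK F R η t) : TopOK F R' η' t := by
  obtain ⟨t', h1, h2⟩ := hF
  refine ⟨t', h1, far_mono hR h ?_ h2⟩
  have := abs_le.1 h1
  unfold Om
  have h3 : 0 ≤ Real.log t' := Real.log_nonneg (by linarith)
  linarith

lemma loc_mono {F : ℂ → ℂ} {η η' T a : ℝ} {j0 J : ℕ} {t : ℝ} (ha : 0 ≤ a) (h : η ≤ η')
    (hL : LocH F η T a j0 J t) : LocH F η' T a j0 J t := by
  intro j h1 h2
  obtain ⟨t', h3, h4⟩ := hL j h1 h2
  exact ⟨t', h3, nn_mono (by positivity) h h4⟩

/-- a geometric bound -/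
lemma geo {c a : ℝ} (hc : 0 < c) (ha : 1 ≤ a) (n : ℕ) :
    ∑ i ∈ Finset.range n, Real.exp (-(c * (2 ^ i * a))) ≤
      (1 - Real.exp (-c))⁻¹ * Real.exp (-(c * a)) := by
  have hq0 : 0 ≤ Real.exp (-c) := (Real.exp_pos _).le
  have hq1 : Real.exp (-c) < 1 := Real.exp_lt_one_iff.2 (by linarith)
  calc ∑ i ∈ Finset.range n, Real.exp (-(c * (2 ^ i * a)))
      ≤ ∑ i ∈ Finset.range n, Real.exp (-c) ^ i * Real.exp (-(c * a)) := by
        refine Finset.sum_le_sum fun i _ => ?_
        rw [← Real.exp_nat_mul, ← Real.exp_add, Real.exp_le_exp]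
        have h1 : (i : ℝ) + 1 ≤ 2 ^ i := by
          have := Nat.lt_two_pow_self (n := i)
          exact_mod_cast this
        have h2 : (i : ℝ) + a ≤ 2 ^ i * a := by
          have hi : (0 : ℝ) ≤ i := Nat.cast_nonneg i
          nlinarith
        nlinarith
    _ = (∑ i ∈ Finset.range n, Real.exp (-c) ^ i) * Real.exp (-(c * a)) := by
        rw [Finset.sum_mul]
    _ ≤ _ := by
        refine mul_le_mul_of_nonneg_right ?_ (Real.exp_pos _).le
        rw [← tsum_geometric_of_lt_one hq0 hq1]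
        exact (summable_geometric_of_lt_one hq0 hq1).sum_le_tsum _ (fun i _ => pow_nonneg hq0 i)

theorem midh (h4 : SH_UNIT) (h5 : SH_PT) (h6 : SH_CNX) (h7 : S_COV) : SH_MIDH := by
  classical
  intro B F FT h hd
  obtain ⟨R1, e1, c1, a1, T1, hR1, he1, hc1, ha1, hT1, hPT⟩ := h5 B F FT h hd
  obtain ⟨R2, e2, c2, a2, C2, T2, hR2, he2, hc2, ha2, hC2, hT2, hCN⟩ := h6 B F FT h hd
  obtain ⟨R, hR⟩ : ∃ R, R = max R1 R2 := ⟨_, rfl⟩
  obtain ⟨η, hη⟩ : ∃ η, η = min e1 e2 := ⟨_, rfl⟩
  have hη0 : 0 < η := by rw [hη]; exact lt_min he1 he2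
  have hRa : R1 ≤ R := by rw [hR]; exact le_max_left _ _
  have hRb : R2 ≤ R := by rw [hR]; exact le_max_right _ _
  have hηa : η ≤ e1 := by rw [hη]; exact min_le_left _ _
  have hηb : η ≤ e2 := by rw [hη]; exact min_le_right _ _
  obtain ⟨cc, CC, a3, T3, hcc, hCC, ha3, hT3, hV⟩ := hd.good η hη0
  obtain ⟨cT, CT, T5, hcT, hCT, hT5, hTop⟩ :=
    hd.top R (1 / 400) η (hR1.trans hRa) (by norm_num) hη0
  obtain ⟨c0, hc0⟩ : ∃ c0 : ℝ, c0 = min (min c1 c2) (1 / 100) := ⟨_, rfl⟩
  have hc0p : 0 < c0 := by rw [hc0]; exact lt_min (lt_min hc1 hc2) (by norm_num)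
  have hc01 : c0 ≤ c1 := by rw [hc0]; exact (min_le_left _ _).trans (min_le_left _ _)
  have hc02 : c0 ≤ c2 := by rw [hc0]; exact (min_le_left _ _).trans (min_le_right _ _)
  have hc03 : c0 ≤ 1 / 100 := by rw [hc0]; exact min_le_right _ _
  obtain ⟨C3, T6, hC3, hT6, hUn⟩ := h4 B F FT h hd (2 * c0) (by positivity)
  obtain ⟨K, hK⟩ : ∃ K : ℝ, K = (1 - Real.exp (-cc))⁻¹ := ⟨_, rfl⟩
  have hK0 : 0 < K := by
    rw [hK]
    have : Real.exp (-cc) < 1 := Real.exp_lt_one_iff.2 (by linarith)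
    exact inv_pos.2 (by linarith)
  obtain ⟨Cw, hCw⟩ : ∃ Cw : ℝ, Cw = 2 * C2 + 800 * C3 := ⟨_, rfl⟩
  have hCw0 : 0 < Cw := by rw [hCw]; positivity
  refine ⟨min cc cT, 100 * C3 * CT + 25 * Cw * CC * K, c0, max (max a1 a2) a3,
    max (max (max T1 T2) T3) (max T5 T6), lt_min hcc hcT, by positivity, hc0p,
    ha1.trans ((le_max_left _ _).trans (le_max_left _ _)),
    hT5.trans ((le_max_left _ _).trans (le_max_right _ _)), ?_⟩
  intro T τ hT hτ ha hsm S hS
  simp only [max_le_iff] at hT ha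
  obtain ⟨⟨⟨hTa, hTb⟩, hTc⟩, hTe, hTf⟩ := hT
  obtain ⟨⟨haa, hab⟩, hac⟩ := ha
  have hT2' : 2 ≤ T := hT5.trans hTe
  have hT0 : 0 < T := by linarith
  obtain ⟨L, hL⟩ : ∃ L : ℝ, L = Real.log T := ⟨_, rfl⟩
  have hLp : 0 < L := by rw [hL]; exact Real.log_pos (by linarith)
  have hOm : Om T = L / 2 := by unfold Om; rw [hL]
  obtain ⟨a, haeq⟩ : ∃ a : ℝ, a = 2 * τ * Om T ^ 2 := ⟨_, rfl⟩
  rw [← haeq] at haa hab hac ⊢
  have ha1' : 1 ≤ a := ha1.trans haa
  have hap : 0 < a := by linarith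
  have hsmall : a ≤ c0 * Om T := by
    have hO : 0 ≤ Om T := by rw [hOm]; positivity
    have h8 := mul_le_mul_of_nonneg_right hsm hO
    rw [haeq, sq, ← mul_assoc]
    exact h8
  have haL : a ≤ L / 200 := by
    have : c0 * Om T ≤ 1 / 100 * Om T := mul_le_mul_of_nonneg_right hc03 (by rw [hOm]; positivity)
    rw [hOm] at this
    rw [hOm] at hsmall
    linarith
  obtain ⟨J, hJ1, hJ2⟩ := exists_nat_pow_near (x := L / 200 / a) (y := (2 : ℝ))
    ((one_le_div hap).2 haL) (by norm_num)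
  rw [le_div_iff₀ hap] at hJ1
  rw [div_lt_iff₀ hap] at hJ2
  have std : ∀ c, c0 ≤ c → Std c T τ a J := fun c hc =>
    { tau := hτ
      a_eq := haeq
      small := hsmall.trans (mul_le_mul_of_nonneg_right hc (by rw [hOm]; positivity))
      top := by rw [← hL]; exact hJ1
      top' := by rw [← hL]; exact hJ2 }
  -- scales
  have hai : ∀ i : ℕ, a ≤ 2 ^ i * a := fun i => by
    have : (1 : ℝ) ≤ 2 ^ i := one_le_pow₀ (by norm_num)
    exact le_mul_of_one_le_left hap.le this
  have hai' : ∀ i : ℕ, i ≤ J → 2 ^ i * a ≤ L / 200 := fun i hi => by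
    have : (2 : ℝ) ^ i ≤ 2 ^ J := pow_le_pow_right₀ (by norm_num) hi
    exact (mul_le_mul_of_nonneg_right this hap.le).trans hJ1
  have hra : ∀ i : ℕ, ra T (2 ^ i * a) = 2 ^ i * a / (L / 2) := fun i => by
    unfold ra; rw [hL]
  have hrp : ∀ i : ℕ, 0 < ra T (2 ^ i * a) := fun i => by rw [hra]; positivity
  have hr1 : ∀ i : ℕ, i ≤ J → ra T (2 ^ i * a) ≤ 1 / 100 := fun i hi => by
    rw [hra, div_le_iff₀ (by positivity)]
    have := hai' i hi
    linarith
  -- weights
  obtain ⟨w, hw⟩ : ∃ w : ℂ → ℝ, w = fun s => (analyticOrderNatAt (FT τ) s : ℝ) := ⟨_, rfl⟩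
  have hw0 : ∀ s, 0 ≤ w s := fun s => by rw [hw]; exact Nat.cast_nonneg _
  have hgoal : ∑ s ∈ S, (analyticOrderNatAt (FT τ) s : ℝ) = ∑ s ∈ S, w s := by rw [hw]
  rw [hgoal]
  -- windows
  have hwin : ∀ S' : Finset ℂ, S' ⊆ S → ∀ s ∈ S, ∀ d : ℝ, d ≤ 1 →
      ∑ s' ∈ S' with |s'.im - s.im| ≤ d, w s' ≤ 2 * C3 * L := by
    intro S' hS' s hs d hd
    obtain ⟨-, hs1, hs2⟩ := hS s hs
    have hlog : Real.log s.im ≤ 2 * L := by
      have h8 : Real.log s.im ≤ Real.log (T ^ 2) :=
        Real.log_le_log (by linarith) (by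
          rw [sq]
          exact hs2.trans (mul_le_mul_of_nonneg_right hT2' hT0.le))
      rw [Real.log_pow] at h8
      rw [hL]
      exact_mod_cast h8
    have := hUn s.im τ (by linarith) hτ (by
      have h9 : Om s.im ≤ 2 * Om T := by
        rw [hOm]; unfold Om; linarith
      calc 2 * τ * Om s.im ≤ 2 * τ * (2 * Om T) := mul_le_mul_of_nonneg_left h9 (by positivity)
        _ = 2 * (2 * τ * Om T) := by ring
        _ ≤ 2 * c0 := by linarith) (S'.filter fun s' => |s'.im - s.im| ≤ d) (by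
      intro s' hs'
      rw [Finset.mem_filter] at hs'
      exact ⟨hs'.2.trans hd, (hS s' (hS' hs'.1)).1.1⟩)
    rw [hw]
    refine this.trans ?_
    have h10 := mul_le_mul_of_nonneg_left hlog hC3.le
    linarith
  -- class A
  have hA : ∑ s ∈ S with ¬ TopOK F R η s.im, w s ≤ 100 * C3 * CT * T * Real.exp (-(cT * a)) * L := by
    have hcov := h7 (S.filter fun s => ¬ TopOK F R η s.im) w
      {t : ℝ | T / 2 ≤ t ∧ t ≤ 3 * T ∧ ¬ FarOK F R (1 / 400) η t} (1 / 100) (CT * T ^ (1 - cT))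
      (2 * C3 * L) (by norm_num) (by positivity) (by positivity) (fun s _ => hw0 s) ?_
      (hTop T hTe) ?_
    · refine hcov.trans ?_
      have h8 : T ^ (1 - cT) ≤ T * Real.exp (-(cT * a)) := by
        rw [Real.rpow_def_of_pos hT0, ← hL]
        have h9 : T = Real.exp L := by rw [hL, Real.exp_log hT0]
        conv_rhs => rw [h9]
        rw [← Real.exp_add, Real.exp_le_exp]
        have h10 : cT * a ≤ cT * L := mul_le_mul_of_nonneg_left (by linarith) hcT.le
        linarith
      calc 2 * C3 * L * (CT * T ^ (1 - cT) / (2 * (1 / 100))) =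
          100 * C3 * CT * L * T ^ (1 - cT) := by ring
        _ ≤ 100 * C3 * CT * L * (T * Real.exp (-(cT * a))) :=
            mul_le_mul_of_nonneg_left h8 (by positivity)
        _ = _ := by ring
    · intro s hs t' ht'
      rw [Finset.mem_filter] at hs
      obtain ⟨-, hs1, hs2⟩ := hS s hs.1
      rw [mem_Icc] at ht'
      refine ⟨by linarith [ht'.1], by linarith [ht'.2], fun hF => hs.2 ⟨t', ?_, hF⟩⟩
      rw [abs_le]
      constructor <;> linarith [ht'.1, ht'.2]
    · intro s hs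
      exact hwin _ (Finset.filter_subset _ _) s (Finset.mem_of_mem_filter s hs) _ (by norm_num)
  -- the class function
  have hex : ∀ t : ℝ, ∃ j0 : ℕ, LocH F η T a j0 J t := fun t => ⟨J + 1, fun j h8 h9 => by omega⟩
  obtain ⟨cls, hcls⟩ : ∃ cls : ℝ → ℕ, cls = fun t => Nat.find (hex t) := ⟨_, rfl⟩
  have hcl1 : ∀ t, LocH F η T a (cls t) J t := fun t => by rw [hcls]; exact Nat.find_spec (hex t)
  have hcl2 : ∀ t m, m < cls t → ¬ LocH F η T a m J t := fun t m hm => by
    rw [hcls] at hm; exact Nat.find_min (hex t) hm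
  have hcl3 : ∀ t, cls t ≤ J + 1 := fun t => by
    rw [hcls]; exact Nat.find_min' (hex t) (fun j h8 h9 => by omega)
  have hcl4 : ∀ s ∈ S, TopOK F R η s.im → 1 ≤ cls s.im := by
    intro s hs htop
    by_contra hcon
    have h0 : cls s.im = 0 := by omega
    have h8 := hcl1 s.im
    rw [h0] at h8
    obtain ⟨hb, hs1, hs2⟩ := hS s hs
    exact (hPT T τ a J 0 s hTa haa (std c1 hc01) (by linarith) (by linarith) (Nat.zero_le _)
      (loc_mono hap.le hηa h8) (top_mono hRa hηa (by linarith) htop) hb.1).2 rfl hb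
  -- one class
  have hcla : ∀ i ∈ Finset.range (J + 1),
      ∑ s ∈ (S.filter fun s => TopOK F R η s.im) with cls s.im - 1 = i, w s ≤
        25 * Cw * CC * T * L * Real.exp (-(cc * (2 ^ i * a))) := by
    intro i hi
    have hiJ : i ≤ J := by rw [Finset.mem_range] at hi; omega
    obtain ⟨Si, hSi⟩ : ∃ Si : Finset ℂ,
      Si = (S.filter fun s => TopOK F R η s.im).filter fun s => cls s.im - 1 = i := ⟨_, rfl⟩
    have hmem : ∀ s ∈ Si, s ∈ S ∧ TopOK F R η s.im ∧ cls s.im = i + 1 := by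
      intro s hs
      rw [hSi, Finset.mem_filter, Finset.mem_filter] at hs
      have := hcl4 s hs.1.1 hs.1.2
      exact ⟨hs.1.1, hs.1.2, by omega⟩
    rw [← hSi]
    have hCi : (2 : ℝ) ^ i * a ≤ Real.log T / 200 := by rw [← hL]; exact hai' i hiJ
    have hcov := h7 Si w
      {t : ℝ | T / 2 ≤ t ∧ t ≤ 3 * T ∧
        ¬ NN (2 ^ i * a) η (fun z => F (I * t + ra T (2 ^ i * a) * z))}
      (ra T (2 ^ i * a) / 100) (CC * T * Real.exp (-(cc * (2 ^ i * a)))) (Cw * (2 ^ i * a))
      (by have := hrp i; positivity) (by positivity) (by positivity) (fun s _ => hw0 s) ?_ ?_ ?_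
    · refine hcov.trans (le_of_eq ?_)
      rw [hra]
      have hne : (2 : ℝ) ^ i * a ≠ 0 := by positivity
      field_simp
      ring
    · intro s hs t' ht'
      obtain ⟨hs0, htop, hci⟩ := hmem s hs
      obtain ⟨-, hs1, hs2⟩ := hS s hs0
      rw [mem_Icc] at ht'
      have hr := hr1 i hiJ
      refine ⟨by linarith [ht'.1], by linarith [ht'.2], fun hN => ?_⟩
      apply hcl2 s.im i (by omega)
      intro j hj hjJ
      rcases hj.eq_or_lt with h8 | h8
      · subst h8
        refine ⟨t', ?_, hN⟩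
        rw [abs_le]
        constructor <;> linarith [ht'.1, ht'.2]
      · exact hcl1 s.im j (by omega) hjJ
    · exact hV T (2 ^ i * a) hTc (hac.trans (hai i)) hCi
    · intro s hs
      obtain ⟨hs0, htop, hci⟩ := hmem s hs
      obtain ⟨hsb, hs1, hs2⟩ := hS s hs0
      have hr := hr1 i hiJ
      rcases hiJ.eq_or_lt with h8 | h8
      · -- the top scale
        have h9 := hwin Si (fun s hs => (hmem s hs).1) s hs0 (2 * (ra T (2 ^ i * a) / 100))
          (by linarith)
        refine h9.trans ?_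
        rw [h8, hCw]
        have h10 : L < 400 * (2 ^ J * a) := by
          rw [pow_succ] at hJ2
          linarith
        have h11 : (0 : ℝ) < 2 ^ J * a := by positivity
        have h12 := mul_le_mul_of_nonneg_left h10.le hC3.le
        have h13 := mul_pos hC2 h11
        linarith
      · have h9 := hCN T τ a s.im J (i + 1) hTb hab (std c2 hc02) (by linarith) (by linarith)
          (by omega) (by
            have := hcl1 s.im
            rw [hci] at this
            exact loc_mono hap.le hηb this) (top_mono hRb hηb (by linarith) htop)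
          (Si.filter fun s' => |s'.im - s.im| ≤ 2 * (ra T (2 ^ i * a) / 100)) ?_
        · rw [hw]
          refine h9.trans ?_
          have h10 : (0 : ℝ) < 2 ^ i * a := by positivity
          rw [hCw, pow_succ]
          have h11 := mul_pos hC3 h10
          linarith
        · intro s' hs'
          rw [Finset.mem_filter] at hs'
          obtain ⟨hs0', htop', hci'⟩ := hmem s' hs'.1
          obtain ⟨hsb', hs1', hs2'⟩ := hS s' hs0'
          have h10 := (hPT T τ a J (i + 1) s' hTa haa (std c1 hc01) (by linarith) (by linarith)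
            (by omega) (by
              have := hcl1 s'.im
              rw [hci'] at this
              exact loc_mono hap.le hηa this) (top_mono hRa hηa (by linarith) htop') hsb'.1).1
          have h11 := hrp (i + 1)
          have h12 : ra T (2 ^ (i + 1) * a) = 2 * ra T (2 ^ i * a) := by
            rw [hra, hra, pow_succ]
            ring
          have h13 := hrp i
          refine ⟨by linarith, ?_, hsb'.1⟩
          rw [h12]
          linarith [hs'.2]
  -- sum
  have hB : ∑ s ∈ S with TopOK F R η s.im, w s ≤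
      25 * Cw * CC * K * T * L * Real.exp (-(cc * a)) := by
    rw [← Finset.sum_fiberwise_of_maps_to (g := fun s : ℂ => cls s.im - 1)
      (t := Finset.range (J + 1)) (fun s _ => by
        have := hcl3 s.im
        rw [Finset.mem_range]; omega)]
    refine (Finset.sum_le_sum hcla).trans ?_
    rw [← Finset.mul_sum]
    have h8 := geo hcc ha1' (J + 1)
    rw [← hK] at h8
    calc 25 * Cw * CC * T * L * ∑ i ∈ Finset.range (J + 1), Real.exp (-(cc * (2 ^ i * a)))
        ≤ 25 * Cw * CC * T * L * (K * Real.exp (-(cc * a))) :=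
          mul_le_mul_of_nonneg_left h8 (by positivity)
      _ = _ := by ring
  rw [← Finset.sum_filter_add_sum_filter_not S (fun s => TopOK F R η s.im)]
  have hm1 : Real.exp (-(cc * a)) ≤ Real.exp (-(min cc cT * a)) := by
    rw [Real.exp_le_exp]
    have := mul_le_mul_of_nonneg_right (min_le_left cc cT) hap.le
    linarith
  have hm2 : Real.exp (-(cT * a)) ≤ Real.exp (-(min cc cT * a)) := by
    rw [Real.exp_le_exp]
    have := mul_le_mul_of_nonneg_right (min_le_right cc cT) hap.le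
    linarith
  calc _ ≤ 25 * Cw * CC * K * T * L * Real.exp (-(cc * a)) +
        100 * C3 * CT * T * Real.exp (-(cT * a)) * L := add_le_add hB hA
    _ ≤ 25 * Cw * CC * K * T * L * Real.exp (-(min cc cT * a)) +
        100 * C3 * CT * T * Real.exp (-(min cc cT * a)) * L := by
        refine add_le_add (mul_le_mul_of_nonneg_left hm1 (by positivity)) ?_
        exact mul_le_mul_of_nonneg_right (mul_le_mul_of_nonneg_left hm2 (by positivity)) hLp.le
    _ = _ := by rw [← hL]; ring

end Pool.Agent.R838.LD.Y287Midh
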