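import Pool.Agent.R838.LD.SpecH
import Pool.Agent.Y671.LD.AllH
import Pool.Agent.R838.LD.Near
import Pool.Agent.R838.LD.GR1
import Pool.Agent.R838.LD.UNG
import Pool.Agent.R838.LD.Bigm
import Pool.Agent.R838.LD.Unit
import Pool.Agent.R838.LD.Grow
import Pool.Agent.R838.LD.PT
import Pool.Agent.R838.LD.Cnx
import Pool.Agent.R838.LD.Midh
import Pool.Agent.R838.LD.Dyh

set_option autoImplicit false

/-! # Zeros of the heat flow: assembly of the abstract theorem, unbounded degree -/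

namespace Pool.Agent.R838.LD

theorem hrel : SH_REL := Pool.Agent.R838.LD.Y494.rel

theorem hung : SH_UNG := Pool.Agent.R838.LD.Y46.ung Pool.Agent.R838.LD.Y494.near Pool.Agent.R838.LD.Y317.gr1

theorem hbigm : SH_BIGM := Pool.Agent.R838.LD.Y46.bigm hung Pool.Agent.Y671.LD.aw Pool.Agent.Y671.LD.nl hrel

theorem hunit : SH_UNIT := Pool.Agent.R838.LD.Y660.unit Pool.Agent.Y671.LD.cnt hrel

theorem hgrow : SH_GROW := Pool.Agent.R838.LD.Y175.grow

theorem hpt : SH_PT := Pool.Agent.R838.LD.Y228.pt hgrow Pool.Agent.W333.SDNGN.ngn Pool.Agent.Y671.LD.aw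
  Pool.Agent.Y671.LD.nl hung hrel

theorem hcnx : SH_CNX := Pool.Agent.R838.LD.Y228.cnx hgrow Pool.Agent.W333.SDNGN.ngn Pool.Agent.Y671.LD.cnt hrel

theorem hmidh : SH_MIDH := Pool.Agent.R838.LD.Y287Midh.midh hunit hpt hcnx Pool.Agent.W337.SD.cov

theorem hdyh : SH_DYH := Pool.Agent.R838.LD.Y287Dyh.dyh hmidh hbigm hunit Pool.Agent.W337.SD.cov

theorem hfinh : SH_FINH := Pool.Agent.R838.LD.Y287Dyh.finh hdyh

end Pool.Agent.R838.LD
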