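import Pool.Agent.Y671.GL.Hdx
import Pool.Agent.Y693.GL.Gy
import Pool.Agent.Y412.GL.HSZ
import Pool.Agent.Y275.GL.HHT
import Pool.Agent.R838.LD.AllH

set_option autoImplicit false

/-!
# Zeros of the heat flow of completed L-functions of arbitrary degree

Variant of the starting module `Pool.Agent.Y671.GL.Hdx` (by helper671).
-/

namespace Pool.Agent.R838.LD

open Complex Filter Topology MeasureTheory Set Polynomial
open scoped ComplexConjugate
open Pool.Agent.H24R2.JP (Om)
open Pool.Agent.H24R2.DZ (ra NN)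
open Pool.Agent.Y671.LD (badH FarOK)
open Pool.Agent.Y671.GL
open Pool.Agent.Y693.GL (GY good_scaleY)
open Pool.Agent.W169.HF (heat Slow)

/-- The zeros of the heat flow of a completed L-function of arbitrary degree. -/
theorem hdy (κ : ℝ) (H X Z : ℂ → ℂ) (hκ : 1 / 2 ≤ κ) (hG : GY κ H X Z)
    (hst : ∀ s : ℂ, X s = 0 → |s.re| ≤ 1 / 2) (hH : HugeX X) :
    ∃ c C : ℝ, 0 < c ∧ 0 < C ∧ ∀ (T τ : ℝ), 2 ≤ T → 0 < τ → τ ≤ 1 / 8 → ∀ S : Finset ℂ,
      (∀ s ∈ S, badH (fun τ => heat τ X) τ s ∧ T < s.im ∧ s.im ≤ 2 * T) →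
      ∑ s ∈ S, (analyticOrderNatAt (heat τ X) s : ℝ) ≤
        C * T * Real.log T * Real.exp (-(c * τ * Real.log T ^ 2)) := by
  have hsz := Pool.Agent.Y412.GL.HSZ.hsz
  have hht := Pool.Agent.Y275.GL.hht
  have hκ0 : 0 < κ := by linarith
  have hC := hG.cg.cf
  have hXd := hC.diff
  obtain ⟨b, hb2⟩ : ∃ b : ℝ, b = 2 * κ := ⟨_, rfl⟩
  have hb : 0 < b := by rw [hb2]; positivity
  have hb1 : 1 ≤ b := by rw [hb2]; linarith
  have hbc : (b : ℂ) ≠ 0 := by exact_mod_cast hb.ne'
  obtain ⟨F, hF⟩ : ∃ F : ℂ → ℂ, F = fun z => X (z / (2 * κ : ℝ)) := ⟨_, rfl⟩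
  have hFb : F = fun z => X (z / (b : ℂ)) := by rw [hF, hb2]
  have hFd : Differentiable ℂ F := by rw [hFb]; exact hXd.comp (by fun_prop)
  obtain ⟨hh, hhd⟩ : ∃ hh : ℝ → ℝ, hh = (fun t : ℝ => if 0 < ‖H (I * t / (2 * κ))‖ then
    ‖H (I * t / (2 * κ))‖ else 1) := ⟨_, rfl⟩
  obtain ⟨h1, h2, h3, h4, h5, h6, h7⟩ := hsz κ H X Z hκ hG.cg F hh (by rw [hF]; push_cast; rfl) hhd
  obtain ⟨K, hK, hslow⟩ := hG.cg.slow
  obtain ⟨X0, T0, hX0, hT0, hhuge⟩ := hH
  have hne : ∃ z, X z ≠ 0 := by
    obtain ⟨K1, T1, hT1, h6'⟩ := h6 (10 * κ)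
    have h8 := (h6' T1 ((10 * κ : ℝ) : ℂ) le_rfl
      (by rw [Complex.norm_real, Real.norm_eq_abs, abs_of_pos (by positivity)])
      (by rw [Complex.ofReal_re])).1
    rw [hFb] at h8
    exact ⟨_, h8⟩
  obtain ⟨g0, gd, gi, gs, gc⟩ := hht X (slow_of hXd hK hslow) hC.symm hne hst
  have hHD : HD κ F (FTx b X) hh := by
    refine ⟨hκ, hFd, ?_, h1, h2, h3, h4, h5, h6, ?_, ?_, ?_, ?_, ?_, ?_, ?_, ?_⟩
    · intro z
      rw [hF]
      exact symm_scale hC.symm z
    · funext z
      show heat (0 / b ^ 2) X (z / b) = F z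
      rw [zero_div, g0, hFb]
    · intro τ hτ
      have h8 := gd (τ / b ^ 2) (by positivity)
      have h9 : FTx b X τ = heat (τ / b ^ 2) X ∘ (fun z : ℂ => z / (b : ℂ)) := rfl
      rw [h9]
      exact h8.comp (by fun_prop)
    · intro τ z hτ
      have h8 := gi (τ / b ^ 2) (z / b) (by positivity)
      have h9 : (fun v : ℝ => ((Real.exp (-v ^ 2) : ℝ) : ℂ) * F (z + ((2 * Real.sqrt τ * v : ℝ) : ℂ))) =
          fun v : ℝ => ((Real.exp (-v ^ 2) : ℝ) : ℂ) *
            X (z / b + ((2 * Real.sqrt (τ / b ^ 2) * v : ℝ) : ℂ)) := by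
        funext v
        rw [hFb]
        simp only
        rw [int_eq hb τ hτ]
      rw [h9]
      exact ⟨h8, rfl⟩
    · intro τ s hτ hs
      have h8 := gs (τ / b ^ 2) (s / b) (by positivity) hs
      rw [Complex.div_ofReal_re, abs_div, abs_of_pos hb, div_le_iff₀ hb] at h8
      rw [hb2] at h8
      linarith
    · refine ⟨2 * b ^ 2 * X0, max (b * T0) (b ^ 2), ?_, ?_, ?_⟩
      · nlinarith
      · refine le_trans ?_ (le_max_left _ _)
        nlinarith
      intro t τ s ht hτ hτ8 hX hs hbad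
      have ht1 : b * T0 ≤ t := (le_max_left _ _).trans ht
      have ht2 : b ^ 2 ≤ t := (le_max_right _ _).trans ht
      have htp : 0 < t := lt_of_lt_of_le (by positivity) ht1
      have hlt : 2 * Real.log b ≤ Real.log t := by
        have := Real.log_le_log (by positivity) ht2
        rw [Real.log_pow] at this
        exact_mod_cast this
      have hb21 : 1 ≤ b ^ 2 := by nlinarith
      rw [badH_scale hb s (gd _ (by positivity))] at hbad
      refine hhuge (t / b) (τ / b ^ 2) (s / b) ?_ (by positivity) ?_ ?_ ?_ hbad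
      · rw [le_div_iff₀ hb]; linarith
      · rw [div_le_iff₀ (by positivity)]; nlinarith
      · rw [Real.log_div htp.ne' hb.ne']
        have h8 : Om t = Real.log t / 2 := rfl
        rw [h8] at hX
        have h9 : τ * Real.log t / 2 ≤ τ * (Real.log t - Real.log b) := by nlinarith
        rw [div_mul_eq_mul_div, le_div_iff₀ (by positivity)]
        linarith
      · rw [Complex.div_ofReal_im, hs]
    · intro T1
      obtain ⟨C, hCl⟩ := gc |T1|
      refine ⟨C, ?_⟩
      intro τ hτ hτ8 S hS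
      classical
      have hb21 : 1 ≤ b ^ 2 := by nlinarith
      have h8 := hCl (τ / b ^ 2) (by positivity) (by rw [div_le_iff₀ (by positivity)]; nlinarith)
        (S.image (fun s => s / (b : ℂ))) (by
          intro w hw
          rw [Finset.mem_image] at hw
          obtain ⟨s, hs, rfl⟩ := hw
          obtain ⟨k1, k2⟩ := hS s hs
          refine ⟨?_, k2⟩
          rw [Complex.div_ofReal_im, abs_div, abs_of_pos hb]
          exact (div_le_self (abs_nonneg _) hb1).trans (k1.trans (le_abs_self _)))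
      rw [Finset.sum_image (by
        intro x _ y _ hxy
        exact (div_left_inj' hbc).1 hxy)] at h8
      refine le_trans (le_of_eq ?_) h8
      refine Finset.sum_congr rfl ?_
      intro s _
      have h9 := order_scale hb (gd (τ / b ^ 2) (by positivity)) (s / b)
      rw [mul_div_cancel₀ _ hbc] at h9
      exact_mod_cast h9
    · rw [hF]
      exact good_scaleY hκ hG.good
    · rw [hF]
      exact top_scale hXd hκ hG.top
  obtain ⟨c, C, hc, hCp, hfin⟩ := hfinh κ F (FTx b X) hh hHD
  have hlog0 : 0 ≤ Real.log b := Real.log_nonneg hb1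
  -- the times `τ > 1 / (8 b ^ 2)`
  obtain ⟨T1, hT1⟩ : ∃ T1 : ℝ, T1 = max T0 (Real.exp (8 * b ^ 2 * X0)) := ⟨_, rfl⟩
  obtain ⟨C1, hC1⟩ := gc (2 * T1)
  obtain ⟨C2, hC2⟩ : ∃ C2 : ℝ, C2 = |C1| * Real.exp (c * Real.log T1 ^ 2) := ⟨_, rfl⟩
  have hC2p : 0 ≤ C2 := by rw [hC2]; positivity
  refine ⟨c, C * b * (1 + 2 * Real.log b) + C2, hc, by positivity, ?_⟩
  intro T τ hT hτ hτ8 S hS
  have hTp : 0 < T := by linarith
  have hlT : 1 / 2 ≤ Real.log T := by
    have h3 : Real.log 2 ≤ Real.log T := Real.log_le_log (by norm_num) hT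
    have := Real.log_two_gt_d9
    linarith
  rcases le_or_gt (τ * b ^ 2) (1 / 8) with hτb | hτb
  · classical
    have e0 : τ * b ^ 2 / b ^ 2 = τ := by field_simp
    have h8 := hfin (b * T) (τ * b ^ 2) (by nlinarith) (by positivity) hτb
      (S.image (fun s => (b : ℂ) * s)) (by
        intro s hs
        rw [Finset.mem_image] at hs
        obtain ⟨w, hw, rfl⟩ := hs
        obtain ⟨k1, k2, k3⟩ := hS w hw
        refine ⟨?_, ?_, ?_⟩
        · rw [badH_scale hb _ (gd _ (by positivity)), mul_div_cancel_left₀ _ hbc, e0]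
          exact k1
        · rw [Complex.im_ofReal_mul]
          gcongr
        · rw [Complex.im_ofReal_mul, ← mul_assoc, mul_comm 2 b, mul_assoc]
          gcongr)
    rw [Finset.sum_image (by
      intro x _ y _ hxy
      exact mul_left_cancel₀ hbc hxy)] at h8
    have h9 : ∀ s ∈ S, (analyticOrderNatAt (heat τ X) s : ℝ) =
        (analyticOrderNatAt (FTx b X (τ * b ^ 2)) ((b : ℂ) * s) : ℝ) := by
      intro s _
      have e1 := order_scale hb (gd τ hτ.le) s
      have e2 : FTx b X (τ * b ^ 2) = fun z => heat τ X (z / (b : ℂ)) := by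
        funext z
        unfold FTx
        rw [e0]
      rw [e2]
      exact_mod_cast e1.symm
    rw [Finset.sum_congr rfl h9]
    refine h8.trans ?_
    have h10 : Real.log (b * T) ≤ (1 + 2 * Real.log b) * Real.log T := by
      rw [Real.log_mul hb.ne' hTp.ne']
      nlinarith
    have h11 : Real.log T ≤ Real.log (b * T) := by
      apply Real.log_le_log hTp
      nlinarith
    have h12 : Real.exp (-(c * (τ * b ^ 2) * Real.log (b * T) ^ 2)) ≤
        Real.exp (-(c * τ * Real.log T ^ 2)) := by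
      apply Real.exp_le_exp.2
      have h13 : Real.log T ^ 2 ≤ Real.log (b * T) ^ 2 := by gcongr
      have h14 : 1 ≤ b ^ 2 := by nlinarith
      have h15 : c * τ * Real.log T ^ 2 ≤ c * (τ * b ^ 2) * Real.log (b * T) ^ 2 := by
        have : τ ≤ τ * b ^ 2 := by nlinarith
        gcongr
      linarith
    have h16 : 0 ≤ C2 * T * Real.log T * Real.exp (-(c * τ * Real.log T ^ 2)) := by positivity
    calc C * (b * T) * Real.log (b * T) * Real.exp (-(c * (τ * b ^ 2) * Real.log (b * T) ^ 2))
        ≤ C * (b * T) * ((1 + 2 * Real.log b) * Real.log T) * Real.exp (-(c * τ * Real.log T ^ 2)) := by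
          gcongr
      _ = C * b * (1 + 2 * Real.log b) * T * Real.log T * Real.exp (-(c * τ * Real.log T ^ 2)) := by ring
      _ ≤ _ := by linarith
  · have h16 : 0 ≤ C * b * (1 + 2 * Real.log b) * T * Real.log T * Real.exp (-(c * τ * Real.log T ^ 2)) := by
      positivity
    rcases le_or_gt T1 T with hTT | hTT
    · -- no bad zeros
      have h17 : S = ∅ := by
        rw [Finset.eq_empty_iff_forall_notMem]
        intro s hs
        obtain ⟨k1, k2, k3⟩ := hS s hs
        have hsp : T1 ≤ s.im := by linarith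
        have h18 : T0 ≤ s.im := by
          refine le_trans ?_ hsp
          rw [hT1]; exact le_max_left _ _
        have h19 : Real.exp (8 * b ^ 2 * X0) ≤ s.im := by
          refine le_trans ?_ hsp
          rw [hT1]; exact le_max_right _ _
        have h20 : 8 * b ^ 2 * X0 ≤ Real.log s.im := by
          rw [Real.le_log_iff_exp_le (by linarith)]
          exact h19
        refine hhuge s.im τ s h18 hτ hτ8 ?_ rfl k1
        have h21 : τ * (8 * b ^ 2 * X0) ≤ τ * Real.log s.im := by gcongr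
        have h22 : 1 * X0 ≤ (8 * (τ * b ^ 2)) * X0 := by
          apply mul_le_mul_of_nonneg_right _ (by linarith)
          linarith
        linarith
      rw [h17]
      simp only [Finset.sum_empty]
      positivity
    · have h17 := hC1 τ hτ.le hτ8 S (by
        intro s hs
        obtain ⟨k1, k2, k3⟩ := hS s hs
        refine ⟨?_, k1.1⟩
        rw [abs_of_pos (by linarith)]
        linarith)
      have h18 : (1 : ℝ) ≤ T * Real.log T := by nlinarith
      have h19 : Real.exp (-(c * Real.log T1 ^ 2)) ≤ Real.exp (-(c * τ * Real.log T ^ 2)) := by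
        apply Real.exp_le_exp.2
        have h20 : Real.log T ≤ Real.log T1 := Real.log_le_log hTp hTT.le
        have h21 : Real.log T ^ 2 ≤ Real.log T1 ^ 2 := by gcongr
        have h22 : c * τ * Real.log T ^ 2 ≤ c * 1 * Real.log T1 ^ 2 := by
          have : τ ≤ 1 := by linarith
          gcongr
        linarith
      have h20 : |C1| ≤ C2 * (T * Real.log T) * Real.exp (-(c * τ * Real.log T ^ 2)) := by
        have h21 : |C1| = C2 * 1 * Real.exp (-(c * Real.log T1 ^ 2)) := by
          rw [hC2, mul_one, mul_assoc, ← Real.exp_add]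
          simp
        rw [h21]
        gcongr
      have h22 := le_abs_self C1
      nlinarith

end Pool.Agent.R838.LD
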