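import Pool.Agent.Y671.LD.SpecH

set_option autoImplicit false

/-!
# Zeros of the heat flow of a completed L-function: abstract form, unbounded degree

Variant of the starting module `Pool.Agent.Y671.LD.SpecH` (by helper671) without the hypothesis `B ≤ 5` on the width of
the strip, that is on the degree of the L-function. The modules `Pool.Agent.R838.LD` are copies of the starting modules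
`Pool.Agent.Y494.LD`, `Y317.LD`, `Y46.LD`, `Y660.LD`, `Y175.LD`, `Y228.LD`, `Y287.LD` which prove the tasks, with the
necessary changes in `Bigm`, `Unit` and `PT`.
-/

namespace Pool.Agent.R838.LD

open Complex Filter Topology MeasureTheory Set
open Pool.Agent.H24R2.JP (Om)
open Pool.Agent.H24R2.DZ (ra NN)
open Pool.Agent.W186.SD (UU NG Grow)
open Pool.Agent.Y671.LD (badH FarOK LocH TopOK)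

structure HD (B : ℝ) (F : ℂ → ℂ) (FT : ℝ → ℂ → ℂ) (h : ℝ → ℝ) : Prop where
  B_ge : 1 / 2 ≤ B
  diff : Differentiable ℂ F
  symm : ∀ z : ℂ, F (-((starRingEnd ℂ) z)) = (starRingEnd ℂ) (F z)
  h_pos : ∀ t : ℝ, 0 < h t
  /-- the size on the line varies slowly -/
  line : ∃ K T0 : ℝ, 1 ≤ K ∧ 1 ≤ T0 ∧ ∀ t v : ℝ, T0 ≤ t → |v| ≤ t / 8 → h (t + v) ≤ h t * Real.exp (K * |v|)
  /-- upper bounds on horizontal lines -/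
  up : ∃ K T0 : ℝ, 1 ≤ K ∧ 1 ≤ T0 ∧ ∀ (t : ℝ) (u : ℂ), T0 ≤ t → |u.im| ≤ 21 →
    (|u.re| ≤ t / 16 → ‖F (I * t + u)‖ ≤ Real.exp (K * Real.log t) * h t * Real.exp ((Om t + K) * |u.re|)) ∧
    (t / 16 ≤ |u.re| → ‖F (I * t + u)‖ ≤ h t * Real.exp (K * |u.re| ^ (7 / 4 : ℝ)))
  /-- to the right: no polynomial factor -/
  right : ∃ R0 K T0 : ℝ, 1 ≤ R0 ∧ 1 ≤ K ∧ 1 ≤ T0 ∧ ∀ (t : ℝ) (u : ℂ), T0 ≤ t → R0 ≤ u.re → ‖u‖ ≤ t / 8 →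
    ‖F (I * t + u)‖ ≤ h t * Real.exp (Om t * u.re + K * (‖u‖ + 1))
  /-- lower bound to the right -/
  lowr : ∃ R0 K : ℝ, 1 ≤ R0 ∧ 1 ≤ K ∧ ∀ x : ℝ, R0 ≤ x → ∃ T0 : ℝ, 1 ≤ T0 ∧ ∀ t : ℝ, T0 ≤ t →
    h t * Real.exp ((Om t - K) * x - K) ≤ ‖F (I * t + (x : ℂ))‖
  /-- logarithmic derivative to the right -/
  ld : ∀ R : ℝ, ∃ K T0 : ℝ, 1 ≤ T0 ∧ ∀ (t : ℝ) (u : ℂ), T0 ≤ t → ‖u‖ ≤ R → 10 * B ≤ u.re →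
    F (I * t + u) ≠ 0 ∧ ‖logDeriv F (I * t + u) - (Om t : ℂ)‖ ≤ K
  /-- the heat flow -/
  heat0 : FT 0 = F
  heatd : ∀ τ : ℝ, 0 ≤ τ → Differentiable ℂ (FT τ)
  heat : ∀ (τ : ℝ) (z : ℂ), 0 ≤ τ →
    Integrable (fun v : ℝ => ((Real.exp (-v ^ 2) : ℝ) : ℂ) * F (z + ((2 * Real.sqrt τ * v : ℝ) : ℂ))) ∧
    FT τ z = ((1 / Real.sqrt Real.pi : ℝ) : ℂ) *
      ∫ v : ℝ, ((Real.exp (-v ^ 2) : ℝ) : ℂ) * F (z + ((2 * Real.sqrt τ * v : ℝ) : ℂ))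
  strip : ∀ (τ : ℝ) (s : ℂ), 0 ≤ τ → FT τ s = 0 → |s.re| ≤ B
  /-- no bad zeros for `2 τ Om t` large -/
  huge : ∃ X0 T0 : ℝ, 1 ≤ X0 ∧ 2 ≤ T0 ∧ ∀ (t τ : ℝ) (s : ℂ), T0 ≤ t → 0 < τ → τ ≤ 1 / 8 →
    X0 ≤ 2 * τ * Om t → s.im = t → ¬ badH FT τ s
  /-- zeros up to a fixed height -/
  lowc : ∀ T1 : ℝ, ∃ C : ℝ, ∀ τ : ℝ, 0 ≤ τ → τ ≤ 1 / 8 → ∀ S : Finset ℂ,
    (∀ s ∈ S, |s.im| ≤ T1 ∧ FT τ s = 0) → ∑ s ∈ S, (analyticOrderNatAt (FT τ) s : ℝ) ≤ C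
  /-- most points are good at all scales -/
  good : ∀ η : ℝ, 0 < η → ∃ c C a0 T0 : ℝ, 0 < c ∧ 0 < C ∧ 1 ≤ a0 ∧ 2 ≤ T0 ∧ ∀ T a : ℝ, T0 ≤ T → a0 ≤ a →
    a ≤ Real.log T / 200 → volume {t0 : ℝ | T / 2 ≤ t0 ∧ t0 ≤ 3 * T ∧
      ¬ NN a η (fun z => F (I * t0 + ra T a * z))} ≤ ENNReal.ofReal (C * T * Real.exp (-(c * a)))
  top : ∀ R ε0 η : ℝ, 1 ≤ R → 0 < ε0 → 0 < η → ∃ c C T0 : ℝ, 0 < c ∧ 0 < C ∧ 2 ≤ T0 ∧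
    ∀ T : ℝ, T0 ≤ T → volume {t : ℝ | T / 2 ≤ t ∧ t ≤ 3 * T ∧ ¬ FarOK F R ε0 η t} ≤
      ENNReal.ofReal (C * T ^ (1 - c))

/-! ## Tasks (each for all `B F FT h` with `HD B F FT h`) -/

/-- Task REL: the heat flow in local coordinates. -/
def SH_REL : Prop := ∀ (B : ℝ) (F : ℂ → ℂ) (FT : ℝ → ℂ → ℂ) (h : ℝ → ℝ), HD B F FT h →
  ∀ (τ r t0 : ℝ) (z : ℂ), 0 < τ → 0 < r → FT τ (I * t0 + r * z) =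
    ((r / (2 * Real.sqrt (Real.pi * τ)) : ℝ) : ℂ) * UU (r ^ 2 / (4 * τ)) (fun z => F (I * t0 + r * z)) z

/-- Task NEAR: three lines. -/
def SH_NEAR : Prop := ∀ (B : ℝ) (F : ℂ → ℂ) (FT : ℝ → ℂ → ℂ) (h : ℝ → ℝ), HD B F FT h →
  ∀ R ε : ℝ, 1 ≤ R → 0 < ε → ∃ R' η T0 : ℝ, 1 ≤ R' ∧ 0 < η ∧ 2 ≤ T0 ∧
  ∀ t ε0 : ℝ, T0 ≤ t → ε ≤ ε0 → ε0 ≤ 1 / 2 → FarOK F R' ε0 η t →
  ∀ z : ℂ, |z.re| ≤ ε0 → ‖z‖ ≤ R →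
    ‖F (I * t + z)‖ ≤ ‖F (I * t + 1)‖ * Real.exp (-((1 - ε0 - ε) * Om t))

/-- Task GR1: growth in units of size `r ≥ c`. -/
def SH_GR1 : Prop := ∀ (B : ℝ) (F : ℂ → ℂ) (FT : ℝ → ℂ → ℂ) (h : ℝ → ℝ), HD B F FT h →
  ∀ c X : ℝ, 0 < c → c ≤ X → ∃ R η T0 : ℝ, 1 ≤ R ∧ 0 < η ∧ 2 ≤ T0 ∧
  ∀ t r g : ℝ, T0 ≤ t → c ≤ r → r ≤ X → 2 * r ^ 2 ≤ g → FarOK F R (min c 1) η t →
    Grow (r * Om t) g (fun z => F (I * t + r * z))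

/-- Task UNG: the local situation at the fixed scale `r`. -/
def SH_UNG : Prop := ∀ (B : ℝ) (F : ℂ → ℂ) (FT : ℝ → ℂ → ℂ) (h : ℝ → ℝ), HD B F FT h →
  ∀ δ c X : ℝ, 0 < δ → δ ≤ 1 / 2 → 0 < c → c ≤ X → ∀ η' : ℝ, 0 < η' →
  ∃ R η T0 : ℝ, 1 ≤ R ∧ 0 < η ∧ 2 ≤ T0 ∧
  ∀ t r g : ℝ, T0 ≤ t → c ≤ r → r ≤ X → 2 * r ^ 2 ≤ g → FarOK F R (δ * min c 1 / 10) η t →
    NG δ (r * Om t) g η' (fun z => F (I * t + r * z))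

/-- Task BIGM: no bad zeros at height `t` if `2 τ Om t` is in a fixed range and `FarOK`. -/
def SH_BIGM : Prop := ∀ (B : ℝ) (F : ℂ → ℂ) (FT : ℝ → ℂ → ℂ) (h : ℝ → ℝ), HD B F FT h →
  ∀ c X : ℝ, 0 < c → c ≤ X → ∃ R ε0 η T0 : ℝ, 1 ≤ R ∧ 0 < ε0 ∧ 0 < η ∧ 2 ≤ T0 ∧
  ∀ (t t' τ : ℝ) (s : ℂ), T0 ≤ t → |t - t'| ≤ 1 → 0 < τ → c ≤ 2 * τ * Om t → 2 * τ * Om t ≤ X →
    FarOK F R ε0 η t' → s.im = t → ¬ badH FT τ s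

/-- Task UNIT: zeros in unit windows. -/
def SH_UNIT : Prop := ∀ (B : ℝ) (F : ℂ → ℂ) (FT : ℝ → ℂ → ℂ) (h : ℝ → ℝ), HD B F FT h →
  ∀ X : ℝ, 0 < X → ∃ C T0 : ℝ, 0 < C ∧ 2 ≤ T0 ∧ ∀ t τ : ℝ, T0 ≤ t → 0 < τ →
  2 * τ * Om t ≤ X → ∀ S : Finset ℂ, (∀ s ∈ S, |s.im - t| ≤ 1 ∧ FT τ s = 0) →
  ∑ s ∈ S, (analyticOrderNatAt (FT τ) s : ℝ) ≤ C * Real.log t

open Pool.Agent.W186.SD (Std)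

/-- Task GROW: growth at all scales. -/
def SH_GROW : Prop := ∀ (B : ℝ) (F : ℂ → ℂ) (FT : ℝ → ℂ → ℂ) (h : ℝ → ℝ), HD B F FT h →
  ∃ R η c0 T0 : ℝ, 1 ≤ R ∧ 0 < η ∧ 0 < c0 ∧ 2 ≤ T0 ∧
  ∀ (T τ a t t' : ℝ) (J j : ℕ), T0 ≤ T → 1 ≤ a → Std c0 T τ a J → T / 2 ≤ t → t ≤ 3 * T → j ≤ J →
    LocH F η T a j J t → TopOK F R η t → |t - t'| ≤ ra T (2 ^ j * a) / 100 →
    NN (2 ^ j * a) η (fun z => F (I * t' + ra T (2 ^ j * a) * z)) →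
    Grow (2 ^ j * a) (ra T (2 ^ j * a) ^ 2 / (4 * τ)) (fun z => F (I * t' + ra T (2 ^ j * a) * z))

/-- Task PT: location of the zeros. -/
def SH_PT : Prop := ∀ (B : ℝ) (F : ℂ → ℂ) (FT : ℝ → ℂ → ℂ) (h : ℝ → ℝ), HD B F FT h →
  ∃ R η c0 a0 T0 : ℝ, 1 ≤ R ∧ 0 < η ∧ 0 < c0 ∧ 1 ≤ a0 ∧ 2 ≤ T0 ∧
  ∀ (T τ a : ℝ) (J j : ℕ) (s : ℂ), T0 ≤ T → a0 ≤ a → Std c0 T τ a J → T / 2 ≤ s.im → s.im ≤ 3 * T → j ≤ J →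
    LocH F η T a j J s.im → TopOK F R η s.im → FT τ s = 0 →
    |s.re| ≤ ra T (2 ^ j * a) / 2 ∧ (j = 0 → ¬ badH FT τ s)

/-- Task CNX: the number of zeros near a good point. -/
def SH_CNX : Prop := ∀ (B : ℝ) (F : ℂ → ℂ) (FT : ℝ → ℂ → ℂ) (h : ℝ → ℝ), HD B F FT h →
  ∃ R η c0 a0 C T0 : ℝ, 1 ≤ R ∧ 0 < η ∧ 0 < c0 ∧ 1 ≤ a0 ∧ 0 < C ∧ 2 ≤ T0 ∧
  ∀ (T τ a t : ℝ) (J j : ℕ), T0 ≤ T → a0 ≤ a → Std c0 T τ a J → T / 2 ≤ t → t ≤ 3 * T → j ≤ J →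
    LocH F η T a j J t → TopOK F R η t → ∀ S : Finset ℂ,
    (∀ s ∈ S, |s.re| ≤ ra T (2 ^ j * a) ∧ |s.im - t| ≤ ra T (2 ^ j * a) ∧ FT τ s = 0) →
    ∑ s ∈ S, (analyticOrderNatAt (FT τ) s : ℝ) ≤ C * (2 ^ j * a)

/-- Task MIDH: small radius. -/
def SH_MIDH : Prop := ∀ (B : ℝ) (F : ℂ → ℂ) (FT : ℝ → ℂ → ℂ) (h : ℝ → ℝ), HD B F FT h →
  ∃ c C c0 a0 T0 : ℝ, 0 < c ∧ 0 < C ∧ 0 < c0 ∧ 1 ≤ a0 ∧ 2 ≤ T0 ∧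
  ∀ T τ : ℝ, T0 ≤ T → 0 < τ → a0 ≤ 2 * τ * Om T ^ 2 → 2 * τ * Om T ≤ c0 →
  ∀ S : Finset ℂ, (∀ s ∈ S, badH FT τ s ∧ T < s.im ∧ s.im ≤ 2 * T) →
  ∑ s ∈ S, (analyticOrderNatAt (FT τ) s : ℝ) ≤ C * T * Real.exp (-(c * (2 * τ * Om T ^ 2))) * Real.log T

/-- Task DYH: all times, dyadic windows. -/
def SH_DYH : Prop := ∀ (B : ℝ) (F : ℂ → ℂ) (FT : ℝ → ℂ → ℂ) (h : ℝ → ℝ), HD B F FT h →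
  ∃ c C T0 : ℝ, 0 < c ∧ 0 < C ∧ 2 ≤ T0 ∧ ∀ T τ : ℝ, T0 ≤ T → 0 < τ → τ ≤ 1 / 8 →
  ∀ S : Finset ℂ, (∀ s ∈ S, badH FT τ s ∧ T < s.im ∧ s.im ≤ 2 * T) →
  ∑ s ∈ S, (analyticOrderNatAt (FT τ) s : ℝ) ≤ C * T * Real.exp (-(c * τ * Real.log T ^ 2)) * Real.log T

/-- Task FINH: the final statement. -/
def SH_FINH : Prop := ∀ (B : ℝ) (F : ℂ → ℂ) (FT : ℝ → ℂ → ℂ) (h : ℝ → ℝ), HD B F FT h →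
  ∃ c C : ℝ, 0 < c ∧ 0 < C ∧ ∀ T τ : ℝ, 2 ≤ T → 0 < τ → τ ≤ 1 / 8 →
  ∀ S : Finset ℂ, (∀ s ∈ S, badH FT τ s ∧ T < s.im ∧ s.im ≤ 2 * T) →
  ∑ s ∈ S, (analyticOrderNatAt (FT τ) s : ℝ) ≤ C * T * Real.log T * Real.exp (-(c * τ * Real.log T ^ 2))

end Pool.Agent.R838.LD
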